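import Pool.Agent.T6.H28.BB.Main

/-!
# The pro-`ℓ` section conjecture for 100% of the twists of a curve `y^ℓ = f(x)` over `k(t)`

Let `k` be any field finitely generated over `ℚ`, that is, the fraction field of a domain `R` of
characteristic zero that is finitely generated as a ring, let `K = k(t)` be the field of rational
functions, and `f ∈ k[x]` a separable polynomial of degree at least 3.  For a prime number `ℓ` that
divides `deg f` and a polynomial `D ∈ k[T]` let `C` be the smooth projective curve
`D(t) y^ℓ = f(x)` over `K`, a twist of the constant curve `y^ℓ = f(x)`.  Its genus is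
`(ℓ - 1)(deg f - 2)/2`, and the points `P_e = (e, 0)`, where `e ∈ k` is a root of `f`, are rational
points of `C`.

Let `F = K(x, y)` be the function field of `C`, and let `M` be the maximal pro-`ℓ` extension of
`K̄ F` that is unramified over `C`, so that `Gal(M/F)` is the geometrically pro-`ℓ` fundamental
group of `C`, the quotient of `π₁(C)` by the kernel of `π₁(C_K̄) → π₁(C_K̄)^(pro-ℓ)`.

**Theorem.**  Let `n ≥ 1`.  For all vectors `(c₀, …, c_n)` of elements of `R` outside a set of density
zero, the polynomial `D = c₀ + c₁ T + … + c_n T^n` is irreducible of degree `n` over `k`, and for all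
prime divisors `ℓ` of `deg f` and every section `s` of `Gal(M/F) → G_K`, where `C` is the curve
`D(t) y^ℓ = f(x)`, there is exactly one prolongation `W` to `M` of the valuation of a branch point such
that the image of `s` is contained in the decomposition group of `W`, and the branch point is a
rational point `P_e`.

The set of the exceptional vectors has density zero in a strong sense: for every `ε > 0` there is an
ideal `I` of `R` of finite index such that the exceptional vectors lie in at most `ε #(R/I)^(n+1)`
residue classes modulo `I`.

So for 100% of the polynomials `D` of a given degree, and for all prime divisors `ℓ` of `deg f`, the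
sections of the geometrically pro-`ℓ` fundamental group of the curve `D(t) y^ℓ = f(x)` are exactly the
sections of the rational points of this curve, and different rational points have sections which are
not conjugate: the pro-`ℓ` section conjecture holds, and the rational points are the `P_e`.  In
particular for every section of `π₁(C) → G_K`, and of `π₁(U) → G_K` for an open subcurve `U`, the
induced section of `Gal(M/F) → G_K` is the section of exactly one of the points `P_e`, and if `f` has
no root in `k` then there are no sections.  As in `TwistsByPolynomials` the theorem is stated for an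
arbitrary extension `N ⊇ M` of `F` in an algebraic closure `Ω` instead of `M`: this includes `N = M`
and the fields `N = F_U` with `Gal(F_U/F) = π₁(U)`.

Some polynomials have to be excluded: for instance the curve `f(t) y^ℓ = f(x)` has the rational point
`(t, 1)`.

The fundamental group is described through valuations.  Let `U` be an open subcurve of `C`, let `Ω`
be an algebraic closure of `F`, and let `F_U` be the maximal extension of `F` inside `Ω` which is
unramified over the closed points of `U`, that is, over their local rings, which are valuation rings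
of `F`.  Then `π₁(U) = Gal(F_U/F)`, and the map `π₁(U) → G_K` is the restriction of automorphisms to
the algebraic closure of `K` in `Ω`.

Proof.  By `Pool.Agent.Results.MP_e66f84_ag.TwistsByPolynomials` it is sufficient that `D` is
irreducible and that any two roots `a`, `a'` of `D` collide at some place for `ℓ`, that is, that there
are a prime `p ≠ ℓ` and an embedding `j` of `k̄` in `ℚ̄_p` for which `f` has good reduction, such that
the leading coefficient of `D` is a unit, the roots are integral, `a` and `a'` are congruent, but not
congruent to other roots, and the valuation of `a - a'` in some finite extension of `ℚ_p` which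
contains `k` and the roots of `D` is not divisible by `ℓ`.  As in
`Pool.Agent.Results.MP_e66f84_ag.SuperellipticFamilies` one finds a number field `L` and
a homomorphism `P : R → L` such that for almost all primes `v` of `L` there is an embedding
`ψ : k → L_v` with `ψ(r) ≡ P(r)` modulo `v²` for all `r ∈ R`; for almost all `v` the coefficients of
`f`, the inverse of its leading coefficient, and the coefficients of polynomials `a'`, `b'` with
`a' f + b' f' = 1` are integral at `v`, so `f` has good reduction, and `v` does not divide `2 deg f`.
Let `D_P` be the polynomial with the coefficients `P(c₀), …, P(c_n)`.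

(1) If `D_P` is irreducible of degree `n` modulo `v`, then `D` is irreducible of degree `n`.  (2) Let
`n ≥ 3`.  If `D_P` is modulo `v` the product of a linear polynomial and of an irreducible polynomial of
degree `n - 1`, then `D` has a root in `L_v`, and the other roots are conjugate over `L_v`; so if `D`
is irreducible, then its Galois group over `k` is doubly transitive.  (3) Let `n ≥ 2`.  Suppose that
`D_P` has modulo `v` the leading coefficient `u ≠ 0`, one double root `a` and `n - 2` simple roots, all
in the residue field, and that `D_P(a)` is not divisible by `v²` for some lift `a` of the double root.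
Then `D` has `n - 2` roots in `L_v`, and the two other roots `b₁`, `b₂` generate a quadratic extension
of `L_v`, in which `b₁ - b₂` is a uniformiser, because `v` does not divide 2 and the value
`lc(D) (a - b₁)(a - b₂)…` of `D` at `a` has valuation one.  So `b₁` and `b₂` collide for all `ℓ` which
are not divisible by `v`.  With the double transitivity it follows that any two roots of `D` collide.

The conditions (1), (2), (3) hold for a proportion of at least `δ (1/N v - 1/(N v)²)` of the classes of
the coefficients modulo `v²`, where `δ` is `1/2n`, `1/(2n - 2)` and, if `N v ≥ 2n`,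
`1/(2^(n-1) (n-2)!)`.  As the sum of the `1/N v` diverges, and as the image of `R` in `L` contains a
multiple of `O_L`, almost all vectors satisfy each of these conditions for some `v`.
-/

open Polynomial

namespace Pool.Agent.Results.MP_e66f84_ag.AlmostAllPolynomials

section definitions

variable (ℓ : ℕ) (k F Ω : Type) [Field k] [Field F] [Field Ω] [Algebra k F] [Algebra F Ω]
  [Algebra k Ω]

/-- The inertia group of the valuation ring `W` of `Ω`, as a subgroup of `Gal(Ω/F)`: the
automorphisms of `Ω` over `F` that map `W` onto itself and act as the identity on its residue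
field. -/
noncomputable def inertia (W : ValuationSubring Ω) : Subgroup (Ω ≃ₐ[F] Ω) :=
  (W.inertiaSubgroup F).map (W.decompositionSubgroup F).subtype

/-- `F_U`, for a set `U` of valuation rings of `F`: the elements of `Ω` fixed by the inertia groups
of all valuation rings `W` of `Ω` with `W ∩ F ∈ U`.  If `Ω` is an algebraic closure of a field `F`
of characteristic zero, this is the maximal extension of `F` in `Ω` unramified over `U`. -/
noncomputable def unramified (U : Set (ValuationSubring F)) : IntermediateField F Ω :=
  ⨅ W : {W : ValuationSubring Ω // W.comap (algebraMap F Ω) ∈ U},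
    IntermediateField.fixedField (inertia F Ω W.1)

/-- `k̄ F`, the compositum of `F` and of the algebraic closure of `k` in `Ω`. -/
noncomputable def geomField : IntermediateField F Ω :=
  IntermediateField.adjoin F (algebraicClosure k Ω : Set Ω)

/-- The algebraic extension `L` of `K` in `Ω` is unramified at all valuation rings of `Ω` that
contain `k`: every nonzero element of `L` has the same valuation as an element of `K`.  (If `K` is
a function field of one variable over the algebraic closure of `k` and `k` has characteristic zero,
then this says that `L/K` is unramified over all points of the smooth projective curve.) -/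
def Unramified {k K Ω : Type} [Field k] [Field K] [Field Ω] [Algebra k Ω] [Algebra K Ω]
    (L : IntermediateField K Ω) : Prop :=
  ∀ W : ValuationSubring Ω, (∀ c : k, algebraMap k Ω c ∈ W) → ∀ z ∈ L, z ≠ 0 →
    ∃ t : K, t ≠ 0 ∧ z / algebraMap K Ω t ∈ W ∧ (z / algebraMap K Ω t)⁻¹ ∈ W

/-- `L/K` is a finite Galois extension whose degree is a power of `ℓ`. -/
def FiniteProEll (ℓ : ℕ) {K Ω : Type} [Field K] [Field Ω] [Algebra K Ω]
    (L : IntermediateField K Ω) : Prop :=
  FiniteDimensional K L ∧ IsGalois K L ∧ ∃ m : ℕ, Module.finrank K L = ℓ ^ m

/-- The maximal unramified pro-`ℓ` extension of `K` in `Ω`: the compositum of the finite Galois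
extensions of `K` whose degree is a power of `ℓ` and which are unramified. -/
noncomputable def maxProEll (ℓ : ℕ) (k K Ω : Type) [Field k] [Field K] [Field Ω] [Algebra k Ω]
    [Algebra K Ω] : IntermediateField K Ω :=
  ⨆ L : {L : IntermediateField K Ω // FiniteProEll ℓ L ∧ Unramified (k := k) L}, L.1

/-- `M`, the maximal unramified pro-`ℓ` extension of `k̄ F` in `Ω`, as an extension of `F`. -/
noncomputable def proEllField : IntermediateField F Ω :=
  (maxProEll ℓ k (geomField k F Ω) Ω).restrictScalars F

/-- The map `τ : M → M` acts as `σ : K → K` on the elements that the fields `K` and `M` have in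
common when they are regarded as subfields of `Ω` through `i` and `j`. -/
def ActsAs {K M Ω : Type} [Field K] [Field M] [Field Ω] (i : K →+* Ω) (j : M →+* Ω) (σ : K → K)
    (τ : M → M) : Prop :=
  ∀ c z, j z = i c → j (τ z) = i (σ c)

/-- Let `k ⊆ K ⊆ Ω` and `F ⊆ N ⊆ Ω` be fields.  A splitting of `Gal(N/F) → Gal(K/k)`: a continuous
homomorphism `s` from `Gal(K/k)` to `Gal(N/F)` such that `s(σ)` acts as `σ` on the elements of
`K ∩ N`. -/
structure Splitting (K N : Type) [Field K] [Field N] [Algebra k K] [Algebra F N] [Algebra K Ω]
    [Algebra N Ω] where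
  /-- the homomorphism `Gal(K/k) → Gal(N/F)` -/
  toHom : (K ≃ₐ[k] K) →* (N ≃ₐ[F] N)
  cont : Continuous toHom
  compat : ∀ σ : K ≃ₐ[k] K, ActsAs (algebraMap K Ω) (algebraMap N Ω) σ (toHom σ)

end definitions

section places

/-- The valuation ring `W` of `N` contains `k`, and the function `t ∈ F` is in its maximal ideal. -/
def ZeroAt (k : Type) {F N : Type} [Field k] [Field F] [Field N] [Algebra k F] [Algebra F N]
    (W : ValuationSubring N) (t : F) : Prop :=
  (∀ c : k, algebraMap F N (algebraMap k F c) ∈ W) ∧ algebraMap F N t ∈ W.nonunits

/-- The residue field of `W ∩ F` is `k`. -/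
def RationalResidue (k F : Type) {N : Type} [Field k] [Field F] [Field N] [Algebra k F]
    [Algebra F N] (W : ValuationSubring N) : Prop :=
  ∀ z : F, algebraMap F N z ∈ W → ∃ c : k, algebraMap F N (z - algebraMap k F c) ∈ W.nonunits

/-- The image of `s : Gal(K/k) → Gal(N/F)` in `Gal(M/F)`, where `M ⊆ N ⊆ Ω`, is contained in the
decomposition group of the valuation ring `W ∩ M`. -/
def InDecomposition {k F Ω K N : Type} [Field k] [Field F] [Field Ω] [Field K] [Field N]
    [Algebra k K] [Algebra F N] [Algebra F Ω] [Algebra K Ω] [Algebra N Ω]
    (s : Splitting k F Ω K N) (M : IntermediateField F Ω) (W : ValuationSubring N) : Prop :=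
  ∀ σ, ∀ z : N, algebraMap N Ω z ∈ M → (s.toHom σ z ∈ W ↔ z ∈ W)

/-- The splitting `s` of `Gal(N/F) → Gal(K/k)` induces on `M ⊆ N` the section of exactly one branch
point, and this is a rational one: there is a valuation ring `W` of `N` above a branch point `x = e`,
where `e ∈ k` is a root of `f`, with residue field `k`, such that the image of `s` in `Gal(M/F)` is
contained in the decomposition group of `W ∩ M`; and `W ∩ M` is the only such valuation ring above
a branch point, that is, with `f(x)` in its maximal ideal. -/
def FromOneBranchPoint {k F Ω K N : Type} [Field k] [Field F] [Field Ω] [Field K] [Field N]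
    [Algebra k F] [Algebra k K] [Algebra F N] [Algebra F Ω] [Algebra K Ω] [Algebra N Ω]
    (f : k[X]) (x : F) (s : Splitting k F Ω K N) (M : IntermediateField F Ω) : Prop :=
  ∃ W : ValuationSubring N,
    (∃ e : k, f.eval e = 0 ∧ ZeroAt k W (x - algebraMap k F e)) ∧ RationalResidue k F W ∧
    InDecomposition s M W ∧
    ∀ W' : ValuationSubring N, ZeroAt k W' (aeval x f) → InDecomposition s M W' →
      ∀ z : N, algebraMap N Ω z ∈ M → (z ∈ W' ↔ z ∈ W)

end places

section curves

/-- `F = k(x, y)` is the function field of the curve `d y^ℓ = f(x)`. -/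
def IsFunctionField {k F : Type} [Field k] [Field F] [Algebra k F] (ℓ : ℕ) (f : k[X]) (d : k)
    (x y : F) : Prop :=
  Transcendental k x ∧ algebraMap k F d * y ^ ℓ = aeval x f ∧
    IntermediateField.adjoin k {x, y} = (⊤ : IntermediateField k F)

/-- Let `F = k(x, y)` be the function field of the curve `C : d y^ℓ = f(x)`, let `Ω` be an algebraic
closure of `F` and `M = proEllField ℓ k F Ω`.  Then `M ⊆ F_U` for all sets `U` of valuation rings of
`F` over `k`, in particular for the set of all closed points of `C` and for its subsets.  For all
extensions `N ⊇ M` of `F` in `Ω`, for instance `N = M` or `N = F_U`, every section of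
`Gal(N/F) → G_k` induces on `M` the section of exactly one branch point, and this is a rational
point of `C`. -/
def SectionsFromBranchPoints (k : Type) [Field k] (ℓ : ℕ) (f : k[X]) (d : k) : Prop :=
  ∀ (F Ω : Type) [Field F] [Field Ω] [Algebra k F] [Algebra F Ω] [Algebra k Ω]
    [IsScalarTower k F Ω] [IsAlgClosure F Ω] (x y : F), IsFunctionField ℓ f d x y →
    (∀ U : Set (ValuationSubring F), (∀ O ∈ U, ∀ c : k, algebraMap k F c ∈ O) →
      proEllField ℓ k F Ω ≤ unramified F Ω U) ∧
    ∀ N : IntermediateField F Ω, proEllField ℓ k F Ω ≤ N →
      ∀ s : Splitting k F Ω (algebraicClosure k Ω) N,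
        FromOneBranchPoint f x s (proEllField ℓ k F Ω)

end curves

lemma iSup_congr_prop {α : Type} [CompleteLattice α] {P Q : α → Prop} (h : ∀ L, P L ↔ Q L) :
    (⨆ L : {L // P L}, L.1) = ⨆ L : {L // Q L}, L.1 := by
  have h1 : P = Q := funext fun L => propext (h L)
  subst h1
  rfl

lemma proEll_eq (ℓ : ℕ) (k F Ω : Type) [Field k] [Field F] [Field Ω] [Algebra k F] [Algebra F Ω]
    [Algebra k Ω] : proEllField ℓ k F Ω = Pool.Agent.Y157.PS.geomPro ℓ k F Ω := by
  unfold proEllField Pool.Agent.Y157.PS.geomPro maxProEll Pool.Agent.Y157.PS.maxPro
  congr 1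
  refine iSup_congr_prop fun L => ?_
  constructor
  · rintro ⟨⟨h1, h2, h3⟩, h4⟩
    refine ⟨⟨h1, h2, h3⟩, fun W hW z hz hz0 => ?_⟩
    obtain ⟨t, ht, h5, h6⟩ := h4 W hW z hz hz0
    exact ⟨t, ht, div_ne_zero hz0 ((_root_.map_ne_zero _).2 ht), h5, h6⟩
  · rintro ⟨⟨h1, h2, h3⟩, h4⟩
    refine ⟨⟨h1, h2, h3⟩, fun W hW z hz hz0 => ?_⟩
    obtain ⟨t, ht, -, h5, h6⟩ := h4 W hW z hz hz0
    exact ⟨t, ht, h5, h6⟩

/-- `K = k(t)` is the field of rational functions in `t` over `k`. -/
def IsRationalFunctionField (k : Type) {K : Type} [Field k] [Field K] [Algebra k K] (t : K) : Prop :=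
  Transcendental k t ∧ IntermediateField.adjoin k {t} = (⊤ : IntermediateField k K)

section density

/-- The polynomial `c₀ + c₁ T + … + c_n T^n` over `k`, for a vector `(c₀, …, c_n)` of elements
of `R`. -/
noncomputable def poly {R : Type} [CommRing R] (k : Type) [Field k] [Algebra R k] {n : ℕ}
    (c : Fin (n + 1) → R) : k[X] :=
  ∑ i : Fin (n + 1), C (algebraMap R k (c i)) * X ^ (i : ℕ)

/-- The vectors `c = (c₀, …, c_n)` of elements of `R` that do not have the following property: the
polynomial `D = c₀ + … + c_n T^n` is irreducible of degree `n` over `k`, and for all prime divisors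
`ℓ` of `deg f` every section for the curve `D(t) y^ℓ = f(x)` over `K = k(t)` induces the section of
exactly one branch point on the geometrically pro-`ℓ` fundamental group, and this is a rational
point. -/
def Exceptional (R : Type) [CommRing R] (k K : Type) [Field k] [Algebra R k] [Field K] [Algebra k K]
    (t : K) (f : k[X]) (n : ℕ) : Set (Fin (n + 1) → R) :=
  {c | ¬ (Irreducible (poly k c) ∧ (poly k c).natDegree = n ∧
    ∀ ℓ : ℕ, ℓ.Prime → ℓ ∣ f.natDegree →
      SectionsFromBranchPoints K ℓ (f.map (algebraMap k K)) (aeval t (poly k c)))}

/-- Density zero: for every `ε > 0` there is an ideal `I` of `R` of finite index such that `E` lies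
in at most `ε #(R/I)ᴺ` residue classes modulo `I`. -/
def DensityZero {R : Type} [CommRing R] {N : ℕ} (E : Set (Fin N → R)) : Prop :=
  ∀ ε : ℝ, 0 < ε → ∃ I : Ideal R, Finite (R ⧸ I) ∧
    (Set.ncard ((fun (c : Fin N → R) i => Ideal.Quotient.mk I (c i)) '' E) : ℝ) ≤
      ε * (Nat.card (R ⧸ I) : ℝ) ^ N

end density

/-- the theorem for one polynomial -/
lemma of_conn (k K : Type) [Field k] [CharZero k] (hk : (⊤ : IntermediateField ℚ k).FG)
    [Field K] [Algebra k K] (t : K) (ht : IsRationalFunctionField k t) (ℓ : ℕ) [Fact ℓ.Prime]
    (f : k[X]) (hf : f.Separable) (hℓ : ℓ ∣ f.natDegree) (h3 : 3 ≤ f.natDegree) (D : k[X])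
    (hD : Irreducible D) (hconn : Pool.Agent.T6.H28.Fin.Conn ℓ f D) :
    SectionsFromBranchPoints K ℓ (f.map (algebraMap k K)) (aeval t D) := by
  obtain ⟨ht1, htop⟩ := ht
  have hD0 := hD.ne_zero
  have hsep := Pool.Agent.T6.H28.Fin.conn_sep f D hD0 hconn
  obtain ⟨a, ha⟩ := Pool.Agent.T6.H28.BB.exists_root D hD
  have ha1 : ¬ ℓ ∣ (D.map (algebraMap k (AlgebraicClosure k))).rootMultiplicity a := by
    rw [Pool.Agent.T6.H28.BB.mult_one D hD a ha, Nat.dvd_one]
    exact (Fact.out : ℓ.Prime).ne_one
  have hcK : CharZero K := charZero_of_injective_algebraMap (algebraMap k K).injective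
  intro F Ω _ _ _ _ _ _ _ x y hxyF
  obtain ⟨hx, hxy, hF⟩ := hxyF
  have hcl : IsAlgClosed Ω := IsAlgClosure.isAlgClosed F
  have halg : Algebra.IsAlgebraic F Ω := IsAlgClosure.isAlgebraic
  have hd0 : aeval t D ≠ 0 := fun h => ht1 ⟨D, hD0, h⟩
  have hFx := Pool.Agent.Y157.PS.alg_of_eqn (Fact.out : ℓ.Prime).pos (f.map (algebraMap k K)) _
    hd0 x y hxy hF
  rw [proEll_eq]
  refine ⟨fun U hU => ?_, fun N hN s => ?_⟩
  · exact (Pool.Agent.Y157.PS.a_ind ℓ K F Ω x hx hFx U hU).1
  · obtain ⟨W, ⟨⟨h1, ⟨e, he, h2⟩, h3'⟩, h4⟩, hun⟩ :=
      Pool.Agent.T6.H28.Geo.genM (f.map (algebraMap k K)) hf.map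
        (by rwa [natDegree_map]) (by rwa [natDegree_map]) (aeval t D) hd0
        (fun δ B hδ hB => Pool.Agent.T6.H28.Fin.atE hk t ht1 htop f hf D hD0 ⟨a, ha1⟩
          hsep _ δ B hδ hB)
        x y hx hxy hF N hN s.toHom s.cont (fun σ c z hz => s.compat σ c z hz)
    refine ⟨W, ⟨e, ?_, h1, h2⟩, h3', h4, fun W' b1 b2 => hun W' b1.1 b1.2 b2⟩
    rwa [aeval_def, Algebra.algebraMap_self, eval₂_id] at he

/-- Let `R` be a domain of characteristic zero that is finitely generated as a ring, with fraction
field `k`; so `k` is any field finitely generated over `ℚ`.  Let `K = k(t)`, let `f ∈ k[x]` be a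
separable polynomial of degree at least 3, and `n ≥ 1`.  For all vectors `(c₀, …, c_n)` of elements of
`R` outside a set of density zero, the polynomial `D = c₀ + … + c_n T^n` is irreducible of degree `n`
over `k`, and for all prime divisors `ℓ` of `deg f`, every section of the fundamental group of the
curve `D(t) y^ℓ = f(x)` over `K`, of its open subcurves, and of the geometrically pro-`ℓ` fundamental
group of the curve, induces on the latter the section of exactly one branch point, and this is a
rational point. -/
theorem result (R : Type) [CommRing R] [IsDomain R] [CharZero R] [Algebra.FiniteType ℤ R]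
    (k : Type) [Field k] [Algebra R k] [IsFractionRing R k] (K : Type) [Field K] [Algebra k K]
    (t : K) (ht : IsRationalFunctionField k t) (f : k[X]) (hf : f.Separable)
    (h3 : 3 ≤ f.natDegree) (n : ℕ) (hn : 1 ≤ n) :
    DensityZero (Exceptional R k K t f n) := by
  have hcz : CharZero k := charZero_of_injective_algebraMap (IsFractionRing.injective R k)
  have e1 : Algebra.EssFiniteType R k :=
    Algebra.EssFiniteType.of_isLocalization k (nonZeroDivisors R)
  have e2 : Algebra.EssFiniteType ℤ k := Algebra.EssFiniteType.comp ℤ R k
  have e3 : Algebra.EssFiniteType ℚ k := Algebra.EssFiniteType.of_comp ℤ ℚ k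
  have hk : (⊤ : IntermediateField ℚ k).FG := IntermediateField.fg_top ℚ k
  refine (Pool.Agent.T6.H28.BB.main (R := R) (k := k) f hf (by omega) n hn).mono ?_
  intro c hc hgood
  obtain ⟨h1, h2, h4⟩ := hgood
  apply hc
  refine ⟨h1, h2, fun ℓ hℓ hℓd => ?_⟩
  have : Fact ℓ.Prime := ⟨hℓ⟩
  exact of_conn k K hk t ht ℓ f hf hℓd h3 _ h1 (h4 ℓ hℓ hℓd)

end Pool.Agent.Results.MP_e66f84_ag.AlmostAllPolynomials
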