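import Pool.Agent.T6.H28.Rot.Fin

/-!
# The pro-`ℓ` section conjecture for twists by rotations over function fields in several variables

Let `k` be any field finitely generated over `ℚ`, and let `K` be the function field of a
geometrically rational variety over `k`: a finitely generated extension of `k` such that the compositum
`k̄ K` is a purely transcendental extension `k̄(t_1, …, t_n)` of `k̄`.  The main example is
`K = k(t_1, …, t_n)`; others are the function fields of quadrics, of Severi-Brauer varieties and of
rational surfaces without rational points.  Let `ℓ` be a prime number, `m = ℓ^j` with `j ≥ 1`, and let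
`g ∈ k[x]` be a polynomial such that `g(x^m)` is separable and its degree is at least 3.  Let
`c = D(t_1, …, t_n) ∈ K`, where `D` is a polynomial with coefficients in `k̄`, let `a₀, d₀ ∈ kˣ` and
let `α`, `β` be integers, `α` not divisible by `m`.  Let `C` be the smooth projective curve
`d y^ℓ = g(a x^m)` over `K`, where `a = a₀ c^α` and `d = d₀ c^β`; for instance
`y^ℓ = g(D(t_1, …, t_n) x^m)`.  Its genus is `(ℓ - 1)(m deg g - 2)/2`.  It is a twist of the constant
curve `y^ℓ = g(x^m)` by automorphisms `(x, y) ↦ (ζ x, ξ y)`.  The points with `x = 0` are given by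
`y^ℓ = g(0)/d`, and those with `x = ∞` by `z^ℓ = lc(g) a^(deg g)/d`, where `z = y x^(-m deg g/ℓ)`.

Let `F = K(x, y)` be the function field of `C`, and let `M` be the maximal pro-`ℓ` extension of
`K̄ F` that is unramified over `C`, so that `Gal(M/F)` is the geometrically pro-`ℓ` fundamental
group of `C`, the quotient of `π₁(C)` by the kernel of `π₁(C_K̄) → π₁(C_K̄)^(pro-ℓ)`.

The components of `D` are its irreducible factors over `k̄` whose multiplicity is not divisible by `ℓ`.
We say that `D` is linked (definition `IsLinked` below), if there is at least one component, and if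
any two of them can be connected by a chain of components such that consecutive ones cross: they
vanish, and their gradients are linearly independent, at some point `z ∈ k̄^n`, and no other
component vanishes at `z`.

**Theorem.**  Suppose that `D` is linked, and that the multiplicity of every irreducible factor of `D`
is prime to `ℓ` or divisible by `m`.  For every section `s` of `Gal(M/F) → G_K` there is exactly one
prolongation `W` to `M` of the valuation of a point with `x = 0`, `x = ∞` or `y = 0` such that the
image of `s` is contained in the decomposition group of `W`, and this point is a rational point of `C`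
with `x = 0` or `x = ∞`.

So the sections of the geometrically pro-`ℓ` fundamental group are exactly the sections of the
rational points of `C`, and different rational points have sections which are not conjugate: the
pro-`ℓ` section conjecture holds for `C`.  In particular for every section of `π₁(C) → G_K`, and of
`π₁(U) → G_K` for an open subcurve `U`, the induced section of `Gal(M/F) → G_K` is the section of
exactly one of the rational points of `C`, and if `C` has no rational point then there are no sections.

The conditions are satisfied if `D` is absolutely irreducible; for `n ≥ 2` these are almost all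
polynomials.  For instance the theorem applies to the curves `y^ℓ = g((t_1^3 + b t_1 + c - t_2^2) x^m)`
over `k(t_1, t_2)`.  For `n ≥ 2` a squarefree polynomial `D` whose zero set is connected and has normal
crossings satisfies them too, for example a product of linear polynomials in general position, as in
`y^2 = g(t_1 t_2 (t_1 + t_2 - 1) x^2)`.  For `D = t`, `n = 1`, this is the theorem
`GenericTwistsByRotations`; the analogous result for the twists `d y^ℓ = f(x)` by the automorphisms
`(x, y) ↦ (x, ξ y)` is the theorem `TwistsInSeveralVariables`.  For `m = ℓ` the condition on the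
multiplicities is empty.

Here the theorem is stated for an arbitrary extension `N ⊇ M` of `F` in an algebraic closure `Ω`
instead of `M`: this includes `N = M` and the fields `N = F_U` with `Gal(F_U/F) = π₁(U)`.

The fundamental group is described through valuations.  Let `U` be an open subcurve of `C`, let `Ω`
be an algebraic closure of `F`, and let `F_U` be the maximal extension of `F` inside `Ω` which is
unramified over the closed points of `U`, that is, over their local rings, which are valuation rings
of `F`.  Then `π₁(U) = Gal(F_U/F)`, and the map `π₁(U) → G_K` is the restriction of automorphisms to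
the algebraic closure of `K` in `Ω`.

Proof.  Let `κ = K̄`, let `κ₀ ⊆ κ` be the algebraic closure of `k`, `ρ^m = a` and `δ^ℓ = d/lc(g)`, and
`X = ρ x`, `Y = δ y`, so that `Y^ℓ = ∏ (X - e)`, where `e ∈ κ₀` runs through the roots of `g(x^m)`, and
`s(σ) X = (σρ/ρ) X`, `s(σ) Y = (σδ/δ) Y`.  As `α` is not divisible by `m`, there are a divisor
`m' > 1` of `m` and `θ` with `θ^(m') = c`, such that `ρ` is a constant times `θ^(α')`, `α'` prime to
`ℓ`, and `δ` a constant times a power of `θ`.  (1) `M` is the compositum of `κ(X)` and of the maximal
unramified pro-`ℓ` extension `M₀` of `κ₀(X, Y)`, and `Gal(M/κ(X)) = Gal(M₀/κ₀(X))`; the elements of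
`s(G_K)` map `M₀` onto itself.  (2) Let `H` be the Galois group of `κ/κ₀(t_1, …, t_n, θ)`.  Then `s(H)`
acts trivially on `M₀`.  Otherwise, by the theory of `ℓ`-groups and Kummer theory, there is an element
`w ∈ κ`, a power `w^(m' ℓ)` of which is a polynomial `G(t_1, …, t_n)`, which is moved by `H`, but is
fixed by all elements of `Gal(κ/κ₀(t_1, …, t_n))` that act trivially on `M₀`.  Now two embeddings of
`κ` in `ℚ̄_p`, for suitable `p`, which agree on `κ₀`, and map `t` to points `b`, `b' ∈ ℚ_p^n` at which
the valuations of `D` are divisible by `m'`, give the elements of the inertia group of `ℚ_p` two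
liftings to `G_K`, whose quotient fixes `θ` and acts trivially on `M₀`, by weights; so it fixes `w`, and
the valuations of `G` at `b` and `b'` are congruent modulo `m' ℓ`.  With `b` near general points of the
irreducible factors, and near the crossings of the components, it follows, as `D` is linked, that
some `G D^(ℓ r)` is an `m' ℓ`-th power, up to a constant, by unique factorisation.  But then
`w ∈ κ₀(t_1, …, t_n, θ)`.  (3) There is a `τ ∈ G_K` which fixes `κ₀` and moves `θ^(m'/ℓ)`.  There is
exactly one automorphism `γ` of `M` over `κ` which acts on `M₀` like `s(τ)`; a power `η` of `γ` has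
order `ℓ` and moves `X`.  (4) Such an automorphism fixes exactly one place `W` of `M`, which is above
`X = 0` or `∞`, and `s(G_K)` normalises the group generated by `γ`, by (2), so it fixes `W`.  The
uniqueness is proved as in `GenericTwistsByRotations`.
-/

open Polynomial

namespace Pool.Agent.Results.MP_e66f84_ag.RotationsInSeveralVariables

section definitions

variable (ℓ : ℕ) (k F Ω : Type) [Field k] [Field F] [Field Ω] [Algebra k F] [Algebra F Ω]
  [Algebra k Ω]

/-- The inertia group of the valuation ring `W` of `Ω`, as a subgroup of `Gal(Ω/F)`: the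
automorphisms of `Ω` over `F` that map `W` onto itself and act as the identity on its residue
field. -/
noncomputable def inertia (W : ValuationSubring Ω) : Subgroup (Ω ≃ₐ[F] Ω) :=
  (W.inertiaSubgroup F).map (W.decompositionSubgroup F).subtype

/-- `F_U`, for a set `U` of valuation rings of `F`: the elements of `Ω` fixed by the inertia groups
of all valuation rings `W` of `Ω` with `W ∩ F ∈ U`.  If `Ω` is an algebraic closure of a field `F`
of characteristic zero, this is the maximal extension of `F` in `Ω` unramified over `U`. -/
noncomputable def unramified (U : Set (ValuationSubring F)) : IntermediateField F Ω :=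
  ⨅ W : {W : ValuationSubring Ω // W.comap (algebraMap F Ω) ∈ U},
    IntermediateField.fixedField (inertia F Ω W.1)

/-- `k̄ F`, the compositum of `F` and of the algebraic closure of `k` in `Ω`. -/
noncomputable def geomField : IntermediateField F Ω :=
  IntermediateField.adjoin F (algebraicClosure k Ω : Set Ω)

/-- The algebraic extension `L` of `K` in `Ω` is unramified at all valuation rings of `Ω` that
contain `k`: every nonzero element of `L` has the same valuation as an element of `K`.  (If `K` is
a function field of one variable over the algebraic closure of `k` and `k` has characteristic zero,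
then this says that `L/K` is unramified over all points of the smooth projective curve.) -/
def Unramified {k K Ω : Type} [Field k] [Field K] [Field Ω] [Algebra k Ω] [Algebra K Ω]
    (L : IntermediateField K Ω) : Prop :=
  ∀ W : ValuationSubring Ω, (∀ c : k, algebraMap k Ω c ∈ W) → ∀ z ∈ L, z ≠ 0 →
    ∃ t : K, t ≠ 0 ∧ z / algebraMap K Ω t ∈ W ∧ (z / algebraMap K Ω t)⁻¹ ∈ W

/-- `L/K` is a finite Galois extension whose degree is a power of `ℓ`. -/
def FiniteProEll (ℓ : ℕ) {K Ω : Type} [Field K] [Field Ω] [Algebra K Ω]
    (L : IntermediateField K Ω) : Prop :=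
  FiniteDimensional K L ∧ IsGalois K L ∧ ∃ m : ℕ, Module.finrank K L = ℓ ^ m

/-- The maximal unramified pro-`ℓ` extension of `K` in `Ω`: the compositum of the finite Galois
extensions of `K` whose degree is a power of `ℓ` and which are unramified. -/
noncomputable def maxProEll (ℓ : ℕ) (k K Ω : Type) [Field k] [Field K] [Field Ω] [Algebra k Ω]
    [Algebra K Ω] : IntermediateField K Ω :=
  ⨆ L : {L : IntermediateField K Ω // FiniteProEll ℓ L ∧ Unramified (k := k) L}, L.1

/-- `M`, the maximal unramified pro-`ℓ` extension of `k̄ F` in `Ω`, as an extension of `F`. -/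
noncomputable def proEllField : IntermediateField F Ω :=
  (maxProEll ℓ k (geomField k F Ω) Ω).restrictScalars F

/-- The map `τ : M → M` acts as `σ : K → K` on the elements that the fields `K` and `M` have in
common when they are regarded as subfields of `Ω` through `i` and `j`. -/
def ActsAs {K M Ω : Type} [Field K] [Field M] [Field Ω] (i : K →+* Ω) (j : M →+* Ω) (σ : K → K)
    (τ : M → M) : Prop :=
  ∀ c z, j z = i c → j (τ z) = i (σ c)

/-- Let `k ⊆ K ⊆ Ω` and `F ⊆ N ⊆ Ω` be fields.  A splitting of `Gal(N/F) → Gal(K/k)`: a continuous
homomorphism `s` from `Gal(K/k)` to `Gal(N/F)` such that `s(σ)` acts as `σ` on the elements of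
`K ∩ N`. -/
structure Splitting (K N : Type) [Field K] [Field N] [Algebra k K] [Algebra F N] [Algebra K Ω]
    [Algebra N Ω] where
  /-- the homomorphism `Gal(K/k) → Gal(N/F)` -/
  toHom : (K ≃ₐ[k] K) →* (N ≃ₐ[F] N)
  cont : Continuous toHom
  compat : ∀ σ : K ≃ₐ[k] K, ActsAs (algebraMap K Ω) (algebraMap N Ω) σ (toHom σ)

end definitions

section places

/-- The valuation ring `W` of `N` contains `k`, and the function `t ∈ F` is in its maximal ideal. -/
def ZeroAt (k : Type) {F N : Type} [Field k] [Field F] [Field N] [Algebra k F] [Algebra F N]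
    (W : ValuationSubring N) (t : F) : Prop :=
  (∀ c : k, algebraMap F N (algebraMap k F c) ∈ W) ∧ algebraMap F N t ∈ W.nonunits

/-- The function `t ∈ F` has a zero or a pole at the valuation ring `W` of `N` over `k`. -/
def ZeroOrPole (k : Type) {F N : Type} [Field k] [Field F] [Field N] [Algebra k F] [Algebra F N]
    (W : ValuationSubring N) (t : F) : Prop :=
  ZeroAt k W t ∨ ZeroAt k W t⁻¹

/-- The residue field of `W ∩ F` is `k`. -/
def RationalResidue (k F : Type) {N : Type} [Field k] [Field F] [Field N] [Algebra k F]
    [Algebra F N] (W : ValuationSubring N) : Prop :=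
  ∀ z : F, algebraMap F N z ∈ W → ∃ c : k, algebraMap F N (z - algebraMap k F c) ∈ W.nonunits

/-- The image of `s : Gal(K/k) → Gal(N/F)` in `Gal(M/F)`, where `M ⊆ N ⊆ Ω`, is contained in the
decomposition group of the valuation ring `W ∩ M`. -/
def InDecomposition {k F Ω K N : Type} [Field k] [Field F] [Field Ω] [Field K] [Field N]
    [Algebra k K] [Algebra F N] [Algebra F Ω] [Algebra K Ω] [Algebra N Ω]
    (s : Splitting k F Ω K N) (M : IntermediateField F Ω) (W : ValuationSubring N) : Prop :=
  ∀ σ, ∀ z : N, algebraMap N Ω z ∈ M → (s.toHom σ z ∈ W ↔ z ∈ W)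

/-- The splitting `s` of `Gal(N/F) → Gal(K/k)` induces on `M ⊆ N` the section of exactly one point,
and this is a rational point with `x = 0` or `x = ∞`: there is a valuation ring `W` of `N` above a
point with `x = 0` or `x = ∞`, with residue field `k`, such that the image of `s` in `Gal(M/F)` is
contained in the decomposition group of `W ∩ M`; and `W ∩ M` is the only such valuation ring above a
point with `x = 0` or `x = ∞` or above a zero of the function `h`. -/
def FromOnePoint {k F Ω K N : Type} [Field k] [Field F] [Field Ω] [Field K] [Field N]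
    [Algebra k F] [Algebra k K] [Algebra F N] [Algebra F Ω] [Algebra K Ω] [Algebra N Ω]
    (h x : F) (s : Splitting k F Ω K N) (M : IntermediateField F Ω) : Prop :=
  ∃ W : ValuationSubring N,
    ZeroOrPole k W x ∧ RationalResidue k F W ∧ InDecomposition s M W ∧
    ∀ W' : ValuationSubring N, ZeroOrPole k W' x ∨ ZeroAt k W' h → InDecomposition s M W' →
      ∀ z : N, algebraMap N Ω z ∈ M → (z ∈ W' ↔ z ∈ W)

end places

section curves

/-- `F = k(x, y)` is the function field of the curve `d y^ℓ = g(a x^m)`. -/
def IsFunctionField {k F : Type} [Field k] [Field F] [Algebra k F] (ℓ m : ℕ) (g : k[X]) (a d : k)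
    (x y : F) : Prop :=
  Transcendental k x ∧ algebraMap k F d * y ^ ℓ = aeval (algebraMap k F a * x ^ m) g ∧
    IntermediateField.adjoin k {x, y} = (⊤ : IntermediateField k F)

/-- Let `F = k(x, y)` be the function field of the curve `C : d y^ℓ = g(a x^m)`, let `Ω` be an
algebraic closure of `F` and `M = proEllField ℓ k F Ω`.  Then `M ⊆ F_U` for all sets `U` of valuation
rings of `F` over `k`, in particular for the set of all closed points of `C` and for its subsets.  For
all extensions `N ⊇ M` of `F` in `Ω`, for instance `N = M` or `N = F_U`, every section of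
`Gal(N/F) → G_k` induces on `M` the section of exactly one of the points with `x = 0`, `x = ∞` or
`g(a x^m) = 0`, and this is a rational point of `C` with `x = 0` or `x = ∞`. -/
def SectionsFromZeroOrInfinity (k : Type) [Field k] (ℓ m : ℕ) (g : k[X]) (a d : k) : Prop :=
  ∀ (F Ω : Type) [Field F] [Field Ω] [Algebra k F] [Algebra F Ω] [Algebra k Ω]
    [IsScalarTower k F Ω] [IsAlgClosure F Ω] (x y : F), IsFunctionField ℓ m g a d x y →
    (∀ U : Set (ValuationSubring F), (∀ O ∈ U, ∀ c : k, algebraMap k F c ∈ O) →
      proEllField ℓ k F Ω ≤ unramified F Ω U) ∧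
    ∀ N : IntermediateField F Ω, proEllField ℓ k F Ω ≤ N →
      ∀ s : Splitting k F Ω (algebraicClosure k Ω) N,
        FromOnePoint (aeval (algebraMap k F a * x ^ m) g) x s (proEllField ℓ k F Ω)

end curves

lemma iSup_congr_prop {α : Type} [CompleteLattice α] {P Q : α → Prop} (h : ∀ L, P L ↔ Q L) :
    (⨆ L : {L // P L}, L.1) = ⨆ L : {L // Q L}, L.1 := by
  have h1 : P = Q := funext fun L => propext (h L)
  subst h1
  rfl

lemma proEll_eq (ℓ : ℕ) (k F Ω : Type) [Field k] [Field F] [Field Ω] [Algebra k F] [Algebra F Ω]
    [Algebra k Ω] : proEllField ℓ k F Ω = Pool.Agent.Y157.PS.geomPro ℓ k F Ω := by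
  unfold proEllField Pool.Agent.Y157.PS.geomPro maxProEll Pool.Agent.Y157.PS.maxPro
  congr 1
  refine iSup_congr_prop fun L => ?_
  constructor
  · rintro ⟨⟨h1, h2, h3⟩, h4⟩
    refine ⟨⟨h1, h2, h3⟩, fun W hW z hz hz0 => ?_⟩
    obtain ⟨t, ht, h5, h6⟩ := h4 W hW z hz hz0
    exact ⟨t, ht, div_ne_zero hz0 ((_root_.map_ne_zero _).2 ht), h5, h6⟩
  · rintro ⟨⟨h1, h2, h3⟩, h4⟩
    refine ⟨⟨h1, h2, h3⟩, fun W hW z hz hz0 => ?_⟩
    obtain ⟨t, ht, -, h5, h6⟩ := h4 W hW z hz hz0
    exact ⟨t, ht, h5, h6⟩

section parametrisation

/-- `K` is the function field of a geometrically rational variety over `k`: it is a finitely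
generated extension of `k`, and the compositum of `K` and of the algebraic closure of `k` (inside an
algebraic closure of `K`) is the field of rational functions in the algebraically independent elements
`t_1, …, t_n` over the algebraic closure of `k`. -/
def IsGeometricallyRational (k K : Type) [Field k] [Field K] [Algebra k K] {n : ℕ}
    (t : Fin n → AlgebraicClosure K) : Prop :=
  (⊤ : IntermediateField k K).FG ∧ AlgebraicIndependent k t ∧
    IntermediateField.adjoin (algebraicClosure k (AlgebraicClosure K))
        (Set.range (algebraMap K (AlgebraicClosure K))) =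
      IntermediateField.adjoin (algebraicClosure k (AlgebraicClosure K)) (Set.range t)

end parametrisation

section condition

variable {κ : Type} [Field κ] {n : ℕ}

/-- The polynomial `P` is irreducible, and its multiplicity as a factor of `D` is a number `m` which
is not divisible by `ℓ`. -/
def IsComponent (ℓ : ℕ) (D P : MvPolynomial (Fin n) κ) : Prop :=
  Irreducible P ∧ ∃ m : ℕ, ¬ ℓ ∣ m ∧ P ^ m ∣ D ∧ ¬ P ^ (m + 1) ∣ D

/-- The components `P` and `P'` of `D` cross: there is a point `z` where both vanish, where the
gradients of `P` and `P'` are linearly independent (some minor of size two of the Jacobian matrix does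
not vanish), and where no other component of `D` vanishes. -/
def AreCrossing (ℓ : ℕ) (D P P' : MvPolynomial (Fin n) κ) : Prop :=
  ∃ z : Fin n → κ, MvPolynomial.eval z P = 0 ∧ MvPolynomial.eval z P' = 0 ∧
    (∃ i i', MvPolynomial.eval z (MvPolynomial.pderiv i P) *
        MvPolynomial.eval z (MvPolynomial.pderiv i' P') ≠
      MvPolynomial.eval z (MvPolynomial.pderiv i' P) *
        MvPolynomial.eval z (MvPolynomial.pderiv i P')) ∧
    ∀ Q, IsComponent ℓ D Q → MvPolynomial.eval z Q = 0 → Associated Q P ∨ Associated Q P'

/-- `D` has a component, and all components are connected by crossings (proportional components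
being regarded as equal). -/
def IsLinked (ℓ : ℕ) (D : MvPolynomial (Fin n) κ) : Prop :=
  (∃ P, IsComponent ℓ D P) ∧ ∀ P P', IsComponent ℓ D P → IsComponent ℓ D P' →
    Relation.EqvGen (fun Q Q' => IsComponent ℓ D Q ∧ IsComponent ℓ D Q' ∧
      (Associated Q Q' ∨ AreCrossing ℓ D Q Q')) P P'

/-- The multiplicity of every irreducible factor of `D` is not divisible by `ℓ`, or it is divisible
by `m`. -/
def HasMultiplicities (ℓ m : ℕ) (D : MvPolynomial (Fin n) κ) : Prop :=
  ∀ Q : MvPolynomial (Fin n) κ, Irreducible Q → ∀ e : ℕ, Q ^ e ∣ D → ¬ Q ^ (e + 1) ∣ D →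
    ¬ ℓ ∣ e ∨ m ∣ e

end condition

/-- Let `k` be a field of characteristic zero which is finitely generated over `ℚ`, `K` the function
field of a geometrically rational variety over `k`, `k̄ K = k̄(t_1, …, t_n)`, `ℓ` a prime number,
`m = ℓ^j` with `j ≥ 1`, `g ∈ k[x]` a polynomial such that `g(x^m)` is separable of degree at least 3, and
`D` a linked polynomial in `n` variables over `k̄` such that `c = D(t_1, …, t_n)` is in `K`, and such
that the multiplicity of every irreducible factor of `D` is prime to `ℓ` or divisible by `m`.  Let
`a₀, d₀ ∈ k` be nonzero, and `α, β` integers, `α` not divisible by `m`.  Then every section of the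
fundamental group of the curve `d₀ c^β y^ℓ = g(a₀ c^α x^m)` over `K`, of its open subcurves, and of the
geometrically pro-`ℓ` fundamental group of the curve, induces on the latter the section of exactly one
of the points with `x = 0`, `x = ∞` or `y = 0`, and this is a rational point with `x = 0` or `x = ∞`. -/
theorem result (k K : Type) [Field k] [CharZero k] (hk : (⊤ : IntermediateField ℚ k).FG)
    [Field K] [Algebra k K] (n : ℕ) (t : Fin n → AlgebraicClosure K)
    (ht : IsGeometricallyRational k K t) (ℓ : ℕ) [Fact ℓ.Prime]
    (j : ℕ) (hj : 1 ≤ j) (g : k[X]) (hg : (expand k (ℓ ^ j) g).Separable)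
    (h3 : 3 ≤ (expand k (ℓ ^ j) g).natDegree)
    (D : MvPolynomial (Fin n) (algebraicClosure k (AlgebraicClosure K))) (hD : IsLinked ℓ D)
    (hm : HasMultiplicities ℓ (ℓ ^ j) D)
    (c : K) (hc : MvPolynomial.aeval t D = algebraMap K (AlgebraicClosure K) c)
    (a₀ d₀ : k) (ha₀ : a₀ ≠ 0) (hd₀ : d₀ ≠ 0) (α β : ℤ) (hα : ¬ ((ℓ ^ j : ℕ) : ℤ) ∣ α) :
    SectionsFromZeroOrInfinity K ℓ (ℓ ^ j) (g.map (algebraMap k K)) (algebraMap k K a₀ * c ^ α)
      (algebraMap k K d₀ * c ^ β) := by
  obtain ⟨ht1, ht2, ht3⟩ := ht
  have hcK : CharZero K := charZero_of_injective_algebraMap (algebraMap k K).injective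
  have hD0 : D ≠ 0 := by
    obtain ⟨⟨P, -, m, -, -, h2⟩, -⟩ := hD
    rintro rfl
    exact h2 (dvd_zero _)
  have hc0 : c ≠ 0 := by
    rintro rfl
    rw [map_zero] at hc
    exact hD0 (ht2.algebraicClosure.eq_zero_of_aeval_eq_zero D hc)
  intro F Ω _ _ _ _ _ _ _ x y hxyF
  obtain ⟨hx, hxy, hF⟩ := hxyF
  have hcl : IsAlgClosed Ω := IsAlgClosure.isAlgClosed F
  have halg : Algebra.IsAlgebraic F Ω := IsAlgClosure.isAlgebraic
  have hd : algebraMap k K d₀ * c ^ β ≠ 0 :=
    mul_ne_zero ((_root_.map_ne_zero _).2 hd₀) (zpow_ne_zero _ hc0)
  have hFx := Pool.Agent.R925.L.alg_eqn (Fact.out : ℓ.Prime).pos (g.map (algebraMap k K)) _ _ hd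
    x y hxy hF
  rw [proEll_eq]
  refine ⟨fun U hU => ?_, fun N hN s => ?_⟩
  · exact (Pool.Agent.Y157.PS.a_ind ℓ K F Ω x hx hFx U hU).1
  · obtain ⟨W, ⟨⟨h1, h2, h3'⟩, h4⟩, hun⟩ :=
      Pool.Agent.T6.H28.Rot.sectR hj hk ht1 t ht2 ht3 D hD (fun Q hQ e he => hm Q hQ e he.1 he.2)
        c hc g hg h3 a₀ d₀ ha₀ hd₀ α β hα _ _ rfl rfl x y hx hxy
        hF N hN s.toHom s.cont (fun σ c z hz => s.compat σ c z hz)
    refine ⟨W, h2.imp (fun h => ⟨h1, h⟩) (fun h => ⟨h1, h⟩), h3', h4, fun W' b1 b2 => ?_⟩
    rcases b1 with (b1 | b1) | b1
    · exact hun W' b1.1 (Or.inl b1.2) b2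
    · exact hun W' b1.1 (Or.inr (Or.inl b1.2)) b2
    · exact hun W' b1.1 (Or.inr (Or.inr b1.2)) b2

end Pool.Agent.Results.MP_e66f84_ag.RotationsInSeveralVariables
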