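import Pool.Agent.T6.H28.GraphE

/-!
# The pro-`ℓ` section conjecture for twists of superelliptic curves over `k(t)` by polynomials

Let `k` be any field finitely generated over `ℚ`, `K = k(t)` the field of rational functions, `ℓ` a
prime number and `f ∈ k[x]` a separable polynomial whose degree is at least 3 and divisible by `ℓ`.
Let `D ∈ k[T]` be a polynomial, of any degree, and let `C` be the smooth projective curve
`D(t) y^ℓ = f(x)` over `K`.  Its genus is `(ℓ - 1)(deg f - 2)/2`, and the points `P_e = (e, 0)`, where
`e ∈ k` is a root of `f`, are rational points of `C`.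

Let `F = K(x, y)` be the function field of `C`, and let `M` be the maximal pro-`ℓ` extension of
`K̄ F` that is unramified over `C`, so that `Gal(M/F)` is the geometrically pro-`ℓ` fundamental
group of `C`, the quotient of `π₁(C)` by the kernel of `π₁(C_K̄) → π₁(C_K̄)^(pro-ℓ)`.

**Theorem.**  Suppose that `D` is separating, or that `D` is linked (definitions `IsSeparating` and
`IsLinked` below; linked polynomials are separating).  For every section `s` of
`Gal(M/F) → G_K` there is exactly one prolongation `W` to `M` of the valuation of a branch point such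
that the image of `s` is contained in the decomposition group of `W`, and the branch point is a
rational point `P_e`.

So the sections of the geometrically pro-`ℓ` fundamental group are exactly the sections of the
rational points of `C`, and different rational points have sections which are not conjugate: the
pro-`ℓ` section conjecture holds for `C`, whose rational points are the `P_e`.  In particular
for every section of `π₁(C) → G_K`, and of `π₁(U) → G_K` for an open subcurve `U`, the induced section
of `Gal(M/F) → G_K` is the section of exactly one of the points `P_e`, and if `f` has no root in `k`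
then there are no sections.

The condition.  Some condition is necessary, because for instance the curve `f(t) y^ℓ = f(x)` has the
rational point `(t, 1)`.  It says that the multiplicity of some root of `D` is not divisible by `ℓ`,
and that the polynomials `G` whose roots are such roots of `D` (in `k̄`), and whose degree is divisible
by `ℓ` if this holds for `D`, are either of the form `H^ℓ / D^r` or are recognised by a `p`-adic test:
there are a prime `p ≠ ℓ`, an embedding `j` of `k̄` in `ℚ̄_p` for which `f` has good reduction, a finite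
extension `E` of `ℚ_p` and points `b`, `b'` of `E` at which the valuations of `D` are divisible by `ℓ`,
whereas the valuations of `G` at `b` and `b'` are different modulo `ℓ`.

For instance this holds if `D` is linked, that is, if the roots of `D` whose multiplicity is not
divisible by `ℓ` are connected by collisions at places where `f` has good reduction: two such roots
`a`, `a'` collide at the place `j`, if they are congruent, but not congruent to the other roots, and the
valuation of `a - a'` in some finite extension of `ℚ_p` which contains `k` and the roots of `D` is not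
divisible by `ℓ`.  If `D` has only one such root there is no condition, and this
case contains the twists `c t^m y^ℓ = f(x)` of the theorem `GenericTwists`.  For example let
`D = T^3 - T - 1`.  Its discriminant is `-23`, two of its roots collide at a place over `23`, where the
difference is a uniformiser of the field generated by the roots, and as the Galois group of `D` is
`S₃`, any two of them collide at some place.  So for `ℓ = 2` the theorem applies to the curves
`(t^3 - t - 1) y² = f(x)` over `ℚ(t)` for all `f` with good reduction at `23`: for `f = x^6 - 1` all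
sections come from the two points `(± 1, 0)`, and for `f = x^6 + 1` there is no section.

Here the theorem is stated for an arbitrary extension `N ⊇ M` of `F` in an algebraic closure `Ω`
instead of `M`: this includes `N = M` and the fields `N = F_U` with `Gal(F_U/F) = π₁(U)`.

The fundamental group is described through valuations.  Let `U` be an open subcurve of `C`, let `Ω`
be an algebraic closure of `F`, and let `F_U` be the maximal extension of `F` inside `Ω` which is
unramified over the closed points of `U`, that is, over their local rings, which are valuation rings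
of `F`.  Then `π₁(U) = Gal(F_U/F)`, and the map `π₁(U) → G_K` is the restriction of automorphisms to
the algebraic closure of `K` in `Ω`.

Proof.  Let `κ = K̄`, let `κ₀ ⊆ κ` be the algebraic closure of `k`, and `δ^ℓ = D(t)/lc(f)`; over `K(δ)`
the curve is the constant curve `C₀ : y^ℓ = f(x)/lc(f)`.  (1) `M` is the compositum of `κ(x)` and of the
maximal unramified pro-`ℓ` extension `M₀` of `κ₀(C₀)`, and `Gal(M/κ(x)) = Gal(M₀/κ₀(x))` (from
`GenericTwists`).  (2) Let `H` be the Galois group of `κ/κ₀(t, δ)`.  Then `s(H)` acts trivially on `M₀`.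
Otherwise the action of `Gal(κ/κ₀(t))` on a finite level of `M₀` has an image `Q`, a finite `ℓ`-group,
in which the image `L` of `H` is a nontrivial normal subgroup with cyclic quotient.  Then `L` is not
contained in the commutator subgroup of `Q`, and there is a character of `Q` of order dividing `ℓ²`
which is not trivial on `L`.  By Kummer theory it belongs to some `w ∈ κ`, `w^(ℓ²) = G₁(t)`, which is
not in `κ₀(t, δ)`.  Now let `j : κ₀ → ℚ̄_p` be a place with good reduction of `f`, and `b`, `b'` two points
of the line over a finite extension `E` of `ℚ_p` at which the valuations of `D` are divisible by `ℓ`;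
by a small change we can make them transcendental over `j(κ₀)`.  They give two embeddings of `κ`
which agree on `κ₀`, and map `K(δ)` into unramified extensions of `E`.  By weights the elements of the
inertia group of `E` act, for both embeddings, trivially on the residue field of the Gauss valuation
of `M`.  So the quotient of the two elements of `G_K` given by an element of the inertia group is an
element of `Gal(κ/κ₀(t, δ))` which acts trivially on `M₀`, hence fixes `w`; therefore the valuations of
`G₁` at `b` and `b'` are congruent modulo `ℓ²`.  With places in general position it follows that the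
multiplicities of the roots of `G₁` are divisible by `ℓ`, and by `ℓ²` for those roots whose
multiplicity in `D` is divisible by `ℓ`; so we may assume that `G₁ = G^ℓ` with `G` as in the condition,
and if `ℓ ∣ deg D` then `ℓ ∣ deg G`.  The condition shows that `G D^r = H^ℓ`, but then `w ∈ κ₀(t, δ)`.
(3) So for `τ ∈ G_K` with `τ(δ) ≠ δ`, which fixes `κ₀`, the automorphism `s(τ)` acts on `M₀` like an
element `γ` of order `ℓ` of `Gal(M/κ(x))`, and the proof ends as in `GenericTwists`: `γ` fixes exactly
one place `W` of `M`, which lies above a branch point, and as `s(G_K)` normalises the group generated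
by `γ`, the place `W` is fixed by `s(G_K)`.
-/

open Polynomial

namespace Pool.Agent.Results.MP_e66f84_ag.TwistsByPolynomials

section definitions

variable (ℓ : ℕ) (k F Ω : Type) [Field k] [Field F] [Field Ω] [Algebra k F] [Algebra F Ω]
  [Algebra k Ω]

/-- The inertia group of the valuation ring `W` of `Ω`, as a subgroup of `Gal(Ω/F)`: the
automorphisms of `Ω` over `F` that map `W` onto itself and act as the identity on its residue
field. -/
noncomputable def inertia (W : ValuationSubring Ω) : Subgroup (Ω ≃ₐ[F] Ω) :=
  (W.inertiaSubgroup F).map (W.decompositionSubgroup F).subtype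

/-- `F_U`, for a set `U` of valuation rings of `F`: the elements of `Ω` fixed by the inertia groups
of all valuation rings `W` of `Ω` with `W ∩ F ∈ U`.  If `Ω` is an algebraic closure of a field `F`
of characteristic zero, this is the maximal extension of `F` in `Ω` unramified over `U`. -/
noncomputable def unramified (U : Set (ValuationSubring F)) : IntermediateField F Ω :=
  ⨅ W : {W : ValuationSubring Ω // W.comap (algebraMap F Ω) ∈ U},
    IntermediateField.fixedField (inertia F Ω W.1)

/-- `k̄ F`, the compositum of `F` and of the algebraic closure of `k` in `Ω`. -/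
noncomputable def geomField : IntermediateField F Ω :=
  IntermediateField.adjoin F (algebraicClosure k Ω : Set Ω)

/-- The algebraic extension `L` of `K` in `Ω` is unramified at all valuation rings of `Ω` that
contain `k`: every nonzero element of `L` has the same valuation as an element of `K`.  (If `K` is
a function field of one variable over the algebraic closure of `k` and `k` has characteristic zero,
then this says that `L/K` is unramified over all points of the smooth projective curve.) -/
def Unramified {k K Ω : Type} [Field k] [Field K] [Field Ω] [Algebra k Ω] [Algebra K Ω]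
    (L : IntermediateField K Ω) : Prop :=
  ∀ W : ValuationSubring Ω, (∀ c : k, algebraMap k Ω c ∈ W) → ∀ z ∈ L, z ≠ 0 →
    ∃ t : K, t ≠ 0 ∧ z / algebraMap K Ω t ∈ W ∧ (z / algebraMap K Ω t)⁻¹ ∈ W

/-- `L/K` is a finite Galois extension whose degree is a power of `ℓ`. -/
def FiniteProEll (ℓ : ℕ) {K Ω : Type} [Field K] [Field Ω] [Algebra K Ω]
    (L : IntermediateField K Ω) : Prop :=
  FiniteDimensional K L ∧ IsGalois K L ∧ ∃ m : ℕ, Module.finrank K L = ℓ ^ m

/-- The maximal unramified pro-`ℓ` extension of `K` in `Ω`: the compositum of the finite Galois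
extensions of `K` whose degree is a power of `ℓ` and which are unramified. -/
noncomputable def maxProEll (ℓ : ℕ) (k K Ω : Type) [Field k] [Field K] [Field Ω] [Algebra k Ω]
    [Algebra K Ω] : IntermediateField K Ω :=
  ⨆ L : {L : IntermediateField K Ω // FiniteProEll ℓ L ∧ Unramified (k := k) L}, L.1

/-- `M`, the maximal unramified pro-`ℓ` extension of `k̄ F` in `Ω`, as an extension of `F`. -/
noncomputable def proEllField : IntermediateField F Ω :=
  (maxProEll ℓ k (geomField k F Ω) Ω).restrictScalars F

/-- The map `τ : M → M` acts as `σ : K → K` on the elements that the fields `K` and `M` have in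
common when they are regarded as subfields of `Ω` through `i` and `j`. -/
def ActsAs {K M Ω : Type} [Field K] [Field M] [Field Ω] (i : K →+* Ω) (j : M →+* Ω) (σ : K → K)
    (τ : M → M) : Prop :=
  ∀ c z, j z = i c → j (τ z) = i (σ c)

/-- Let `k ⊆ K ⊆ Ω` and `F ⊆ N ⊆ Ω` be fields.  A splitting of `Gal(N/F) → Gal(K/k)`: a continuous
homomorphism `s` from `Gal(K/k)` to `Gal(N/F)` such that `s(σ)` acts as `σ` on the elements of
`K ∩ N`. -/
structure Splitting (K N : Type) [Field K] [Field N] [Algebra k K] [Algebra F N] [Algebra K Ω]
    [Algebra N Ω] where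
  /-- the homomorphism `Gal(K/k) → Gal(N/F)` -/
  toHom : (K ≃ₐ[k] K) →* (N ≃ₐ[F] N)
  cont : Continuous toHom
  compat : ∀ σ : K ≃ₐ[k] K, ActsAs (algebraMap K Ω) (algebraMap N Ω) σ (toHom σ)

end definitions

section places

/-- The valuation ring `W` of `N` contains `k`, and the function `t ∈ F` is in its maximal ideal. -/
def ZeroAt (k : Type) {F N : Type} [Field k] [Field F] [Field N] [Algebra k F] [Algebra F N]
    (W : ValuationSubring N) (t : F) : Prop :=
  (∀ c : k, algebraMap F N (algebraMap k F c) ∈ W) ∧ algebraMap F N t ∈ W.nonunits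

/-- The residue field of `W ∩ F` is `k`. -/
def RationalResidue (k F : Type) {N : Type} [Field k] [Field F] [Field N] [Algebra k F]
    [Algebra F N] (W : ValuationSubring N) : Prop :=
  ∀ z : F, algebraMap F N z ∈ W → ∃ c : k, algebraMap F N (z - algebraMap k F c) ∈ W.nonunits

/-- The image of `s : Gal(K/k) → Gal(N/F)` in `Gal(M/F)`, where `M ⊆ N ⊆ Ω`, is contained in the
decomposition group of the valuation ring `W ∩ M`. -/
def InDecomposition {k F Ω K N : Type} [Field k] [Field F] [Field Ω] [Field K] [Field N]
    [Algebra k K] [Algebra F N] [Algebra F Ω] [Algebra K Ω] [Algebra N Ω]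
    (s : Splitting k F Ω K N) (M : IntermediateField F Ω) (W : ValuationSubring N) : Prop :=
  ∀ σ, ∀ z : N, algebraMap N Ω z ∈ M → (s.toHom σ z ∈ W ↔ z ∈ W)

/-- The splitting `s` of `Gal(N/F) → Gal(K/k)` induces on `M ⊆ N` the section of exactly one branch
point, and this is a rational one: there is a valuation ring `W` of `N` above a branch point `x = e`,
where `e ∈ k` is a root of `f`, with residue field `k`, such that the image of `s` in `Gal(M/F)` is
contained in the decomposition group of `W ∩ M`; and `W ∩ M` is the only such valuation ring above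
a branch point, that is, with `f(x)` in its maximal ideal. -/
def FromOneBranchPoint {k F Ω K N : Type} [Field k] [Field F] [Field Ω] [Field K] [Field N]
    [Algebra k F] [Algebra k K] [Algebra F N] [Algebra F Ω] [Algebra K Ω] [Algebra N Ω]
    (f : k[X]) (x : F) (s : Splitting k F Ω K N) (M : IntermediateField F Ω) : Prop :=
  ∃ W : ValuationSubring N,
    (∃ e : k, f.eval e = 0 ∧ ZeroAt k W (x - algebraMap k F e)) ∧ RationalResidue k F W ∧
    InDecomposition s M W ∧
    ∀ W' : ValuationSubring N, ZeroAt k W' (aeval x f) → InDecomposition s M W' →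
      ∀ z : N, algebraMap N Ω z ∈ M → (z ∈ W' ↔ z ∈ W)

end places

section curves

/-- `F = k(x, y)` is the function field of the curve `d y^ℓ = f(x)`. -/
def IsFunctionField {k F : Type} [Field k] [Field F] [Algebra k F] (ℓ : ℕ) (f : k[X]) (d : k)
    (x y : F) : Prop :=
  Transcendental k x ∧ algebraMap k F d * y ^ ℓ = aeval x f ∧
    IntermediateField.adjoin k {x, y} = (⊤ : IntermediateField k F)

/-- Let `F = k(x, y)` be the function field of the curve `C : d y^ℓ = f(x)`, let `Ω` be an algebraic
closure of `F` and `M = proEllField ℓ k F Ω`.  Then `M ⊆ F_U` for all sets `U` of valuation rings of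
`F` over `k`, in particular for the set of all closed points of `C` and for its subsets.  For all
extensions `N ⊇ M` of `F` in `Ω`, for instance `N = M` or `N = F_U`, every section of
`Gal(N/F) → G_k` induces on `M` the section of exactly one branch point, and this is a rational
point of `C`. -/
def SectionsFromBranchPoints (k : Type) [Field k] (ℓ : ℕ) (f : k[X]) (d : k) : Prop :=
  ∀ (F Ω : Type) [Field F] [Field Ω] [Algebra k F] [Algebra F Ω] [Algebra k Ω]
    [IsScalarTower k F Ω] [IsAlgClosure F Ω] (x y : F), IsFunctionField ℓ f d x y →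
    (∀ U : Set (ValuationSubring F), (∀ O ∈ U, ∀ c : k, algebraMap k F c ∈ O) →
      proEllField ℓ k F Ω ≤ unramified F Ω U) ∧
    ∀ N : IntermediateField F Ω, proEllField ℓ k F Ω ≤ N →
      ∀ s : Splitting k F Ω (algebraicClosure k Ω) N,
        FromOneBranchPoint f x s (proEllField ℓ k F Ω)

end curves

lemma iSup_congr_prop {α : Type} [CompleteLattice α] {P Q : α → Prop} (h : ∀ L, P L ↔ Q L) :
    (⨆ L : {L // P L}, L.1) = ⨆ L : {L // Q L}, L.1 := by
  have h1 : P = Q := funext fun L => propext (h L)
  subst h1
  rfl

lemma proEll_eq (ℓ : ℕ) (k F Ω : Type) [Field k] [Field F] [Field Ω] [Algebra k F] [Algebra F Ω]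
    [Algebra k Ω] : proEllField ℓ k F Ω = Pool.Agent.Y157.PS.geomPro ℓ k F Ω := by
  unfold proEllField Pool.Agent.Y157.PS.geomPro maxProEll Pool.Agent.Y157.PS.maxPro
  congr 1
  refine iSup_congr_prop fun L => ?_
  constructor
  · rintro ⟨⟨h1, h2, h3⟩, h4⟩
    refine ⟨⟨h1, h2, h3⟩, fun W hW z hz hz0 => ?_⟩
    obtain ⟨t, ht, h5, h6⟩ := h4 W hW z hz hz0
    exact ⟨t, ht, div_ne_zero hz0 ((_root_.map_ne_zero _).2 ht), h5, h6⟩
  · rintro ⟨⟨h1, h2, h3⟩, h4⟩
    refine ⟨⟨h1, h2, h3⟩, fun W hW z hz hz0 => ?_⟩
    obtain ⟨t, ht, -, h5, h6⟩ := h4 W hW z hz hz0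
    exact ⟨t, ht, h5, h6⟩

/-- `K = k(t)` is the field of rational functions in `t` over `k`. -/
def IsRationalFunctionField (k : Type) {K : Type} [Field k] [Field K] [Algebra k K] (t : K) : Prop :=
  Transcendental k t ∧ IntermediateField.adjoin k {t} = (⊤ : IntermediateField k K)

section condition

variable {k : Type} [Field k] {p : ℕ} [Fact p.Prime]

/-- Let `j` be an embedding of the algebraic closure of `k` in the algebraic closure of `ℚ_p`.  The
polynomial `f ∈ k[x]` has good reduction: its leading coefficient is a unit, its roots are integral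
and different modulo the maximal ideal. -/
def HasGoodReduction (f : k[X]) (j : AlgebraicClosure k →+* PadicAlgCl p) : Prop :=
  ‖j (algebraMap k (AlgebraicClosure k) f.leadingCoeff)‖ = 1 ∧
    (∀ e, aeval e f = 0 → ‖j e‖ ≤ 1) ∧
    ∀ e e', aeval e f = 0 → aeval e' f = 0 → e ≠ e' → ‖j e - j e'‖ = 1

/-- `E` is a finite extension of `ℚ_p` which contains the images under `j` of `k` and of the roots
of `D`. -/
def IsSplittingExtension (D : k[X]) (j : AlgebraicClosure k →+* PadicAlgCl p)
    (E : IntermediateField ℚ_[p] (PadicAlgCl p)) : Prop :=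
  FiniteDimensional ℚ_[p] E ∧ (∀ c : k, j (algebraMap k (AlgebraicClosure k) c) ∈ E) ∧
    ∀ a, aeval a D = 0 → j a ∈ E

/-- The valuation of `c ∈ E`, `c ≠ 0`, in the finite extension `E` of `ℚ_p` is divisible by `ℓ` (the
value group of `E` being `ℤ`). -/
def HasDivisibleValuation (ℓ : ℕ) (E : IntermediateField ℚ_[p] (PadicAlgCl p))
    (c : PadicAlgCl p) : Prop :=
  ∃ e ∈ E, ‖c‖ = ‖e‖ ^ ℓ

/-- The value of the polynomial `D` at the point `b`. -/
noncomputable def value (D : k[X]) (j : AlgebraicClosure k →+* PadicAlgCl p)
    (b : PadicAlgCl p) : PadicAlgCl p :=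
  D.eval₂ (j.comp (algebraMap k (AlgebraicClosure k))) b

/-- There are a prime `p ≠ ℓ`, a `p`-adic place of `k` where `f` has good reduction, and points `b`,
`b'` of the line at which the valuations of `D` are divisible by `ℓ`, whereas the difference of the
valuations of `G` is not divisible by `ℓ`. -/
def HasTest (ℓ : ℕ) (f D : k[X]) (G : (AlgebraicClosure k)[X]) : Prop :=
  ∃ (p : ℕ) (_ : Fact p.Prime), ℓ ≠ p ∧ ∃ j : AlgebraicClosure k →+* PadicAlgCl p,
    HasGoodReduction f j ∧ ∃ E : IntermediateField ℚ_[p] (PadicAlgCl p),
      IsSplittingExtension D j E ∧ ∃ b ∈ E, ∃ b' ∈ E, value D j b ≠ 0 ∧ value D j b' ≠ 0 ∧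
        HasDivisibleValuation ℓ E (value D j b) ∧ HasDivisibleValuation ℓ E (value D j b') ∧
        ¬ HasDivisibleValuation ℓ E (G.eval₂ j b / G.eval₂ j b')

/-- The multiplicity of `a ∈ k̄` as a root of `D`. -/
noncomputable def mult (D : k[X]) (a : AlgebraicClosure k) : ℕ :=
  (D.map (algebraMap k (AlgebraicClosure k))).rootMultiplicity a

/-- The condition on `D`: the multiplicity of some root is not divisible by `ℓ`, and for all monic
polynomials `G` over `k̄` such that the multiplicities in `D` of the roots of `G` are not divisible by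
`ℓ`, and such that `ℓ ∣ deg G` if `ℓ ∣ deg D`, either some `G D^r` is an `ℓ`-th power, or there is a
test for `G`. -/
def IsSeparating (ℓ : ℕ) (f D : k[X]) : Prop :=
  (∃ a : AlgebraicClosure k, ¬ ℓ ∣ mult D a) ∧
    ∀ G : (AlgebraicClosure k)[X], G.Monic → (∀ a, G.IsRoot a → ¬ ℓ ∣ mult D a) →
      (ℓ ∣ D.natDegree → ℓ ∣ G.natDegree) →
      (∃ (r : ℕ) (H : (AlgebraicClosure k)[X]),
        G * (D.map (algebraMap k (AlgebraicClosure k))) ^ r = H ^ ℓ) ∨ HasTest ℓ f D G

/-- The roots `a` and `a'` of `D` collide at a `p`-adic place with `p ≠ ℓ` where `f` has good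
reduction: the leading coefficient of `D` is a unit, the roots of `D` are integral, `a` and `a'` are
congruent, but not congruent to the other roots, and the valuation of `a - a'` in some finite extension
of `ℚ_p` which contains `k` and the roots is not divisible by `ℓ`. -/
def Collide (ℓ : ℕ) (f D : k[X]) (a a' : AlgebraicClosure k) : Prop :=
  ∃ (p : ℕ) (_ : Fact p.Prime), ℓ ≠ p ∧ ∃ j : AlgebraicClosure k →+* PadicAlgCl p,
    HasGoodReduction f j ∧ ‖j (algebraMap k (AlgebraicClosure k) D.leadingCoeff)‖ = 1 ∧
    (∀ b, aeval b D = 0 → ‖j b‖ ≤ 1) ∧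
    (∀ b, aeval b D = 0 → b ≠ a → b ≠ a' → ‖j a - j b‖ = 1) ∧ ‖j a - j a'‖ < 1 ∧
    ∃ E : IntermediateField ℚ_[p] (PadicAlgCl p), IsSplittingExtension D j E ∧
      ¬ HasDivisibleValuation ℓ E (j a - j a')

/-- Some root of `D` has a multiplicity which is not divisible by `ℓ`, and all these roots are
connected by collisions. -/
def IsLinked (ℓ : ℕ) (f D : k[X]) : Prop :=
  (∃ a : AlgebraicClosure k, ¬ ℓ ∣ mult D a) ∧
    ∀ a a' : AlgebraicClosure k, ¬ ℓ ∣ mult D a → ¬ ℓ ∣ mult D a' →
      Relation.EqvGen (fun b b' => ¬ ℓ ∣ mult D b ∧ ¬ ℓ ∣ mult D b' ∧ b ≠ b' ∧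
        Collide ℓ f D b b') a a'

end condition

lemma ne_zero_of_mult {k : Type} [Field k] {ℓ : ℕ} (D : k[X]) (a : AlgebraicClosure k)
    (h : ¬ ℓ ∣ mult D a) : D ≠ 0 := by
  rintro rfl
  apply h
  unfold mult
  rw [Polynomial.map_zero, rootMultiplicity_zero]
  exact dvd_zero ℓ

lemma test_iff {k : Type} [Field k] {ℓ : ℕ} (f D : k[X]) (G : (AlgebraicClosure k)[X])
    (h : HasTest ℓ f D G) : Pool.Agent.T6.H28.Fin.Tst ℓ f D G := by
  obtain ⟨p, hp, h1, j, h2, E, ⟨h3, h4, h5⟩, b, hb, b', hb', h6, h7, h8, h9, h10⟩ := h
  exact ⟨p, hp, h1, j, h2, E, h3, h4, h5, b, hb, b', hb', h6, h7, h8, h9, h10⟩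

lemma test_iff' {k : Type} [Field k] {ℓ : ℕ} (f D : k[X]) (G : (AlgebraicClosure k)[X])
    (h : Pool.Agent.T6.H28.Fin.Tst ℓ f D G) : HasTest ℓ f D G := by
  obtain ⟨p, hp, h1, j, h2, E, h3, h4, h5, b, hb, b', hb', h6, h7, h8, h9, h10⟩ := h
  exact ⟨p, hp, h1, j, h2, E, ⟨h3, h4, h5⟩, b, hb, b', hb', h6, h7, h8, h9, h10⟩

lemma collide_iff {k : Type} [Field k] {ℓ : ℕ} (f D : k[X]) (a a' : AlgebraicClosure k)
    (h : Collide ℓ f D a a') : Pool.Agent.T6.H28.Fin.Coll ℓ f D a a' := by
  obtain ⟨p, hp, h1, j, h2, h3, h4, h5, h6, E, ⟨h7, h8, h9⟩, h10⟩ := h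
  exact ⟨p, hp, h1, j, h2, h3, h4, h5, h6, E, h7, h8, h9, h10⟩

/-- a linked polynomial is separating -/
lemma isSeparating_of_isLinked {k : Type} [Field k] [CharZero k] {ℓ : ℕ} [Fact ℓ.Prime]
    (f D : k[X]) (hD : IsLinked ℓ f D) : IsSeparating ℓ f D := by
  refine ⟨hD.1, fun G h1 h2 h4 => ?_⟩
  obtain ⟨⟨a, ha⟩, hcon⟩ := hD
  have hsep := Pool.Agent.T6.H28.Fin.conn_sep f D (ne_zero_of_mult D a ha)
    (fun b b' hb hb' => Relation.EqvGen.mono
      (fun c c' hc => ⟨hc.1, hc.2.1, hc.2.2.1, collide_iff f D c c' hc.2.2.2⟩) b b'
      (hcon b b' hb hb'))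
  exact (hsep G h1 h2 h4).imp id (test_iff' f D G)

/-- Let `k` be a field of characteristic zero which is finitely generated over `ℚ`, `K = k(t)`, `ℓ` a
prime number, `f ∈ k[x]` a separable polynomial whose degree is at least 3 and divisible by `ℓ`, and
`D ∈ k[T]` a polynomial which is separating, for instance linked.  Then every section of the
fundamental group of the curve `D(t) y^ℓ = f(x)` over `K`, of its open subcurves, and of the
geometrically pro-`ℓ` fundamental group of the curve, induces on the latter the section of exactly one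
branch point, and this is a rational point. -/
theorem result (k K : Type) [Field k] [CharZero k] (hk : (⊤ : IntermediateField ℚ k).FG)
    [Field K] [Algebra k K] (t : K) (ht : IsRationalFunctionField k t) (ℓ : ℕ) [Fact ℓ.Prime]
    (f : k[X]) (hf : f.Separable) (hℓ : ℓ ∣ f.natDegree) (h3 : 3 ≤ f.natDegree) (D : k[X])
    (hD : IsSeparating ℓ f D ∨ IsLinked ℓ f D) :
    SectionsFromBranchPoints K ℓ (f.map (algebraMap k K)) (aeval t D) := by
  obtain ⟨ht1, htop⟩ := ht
  obtain ⟨⟨a, ha⟩, hsep⟩ := hD.elim id (isSeparating_of_isLinked f D)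
  have hD0 := ne_zero_of_mult D a ha
  have hcK : CharZero K := charZero_of_injective_algebraMap (algebraMap k K).injective
  intro F Ω _ _ _ _ _ _ _ x y hxyF
  obtain ⟨hx, hxy, hF⟩ := hxyF
  have hcl : IsAlgClosed Ω := IsAlgClosure.isAlgClosed F
  have halg : Algebra.IsAlgebraic F Ω := IsAlgClosure.isAlgebraic
  have hd0 : aeval t D ≠ 0 := fun h => ht1 ⟨D, hD0, h⟩
  have hFx := Pool.Agent.Y157.PS.alg_of_eqn (Fact.out : ℓ.Prime).pos (f.map (algebraMap k K)) _
    hd0 x y hxy hF
  rw [proEll_eq]
  refine ⟨fun U hU => ?_, fun N hN s => ?_⟩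
  · exact (Pool.Agent.Y157.PS.a_ind ℓ K F Ω x hx hFx U hU).1
  · obtain ⟨W, ⟨⟨h1, ⟨e, he, h2⟩, h3'⟩, h4⟩, hun⟩ :=
      Pool.Agent.T6.H28.Geo.genM (f.map (algebraMap k K)) hf.map
        (by rwa [natDegree_map]) (by rwa [natDegree_map]) (aeval t D) hd0
        (fun δ B hδ hB => Pool.Agent.T6.H28.Fin.atE hk t ht1 htop f hf D hD0 ⟨a, ha⟩
          (fun G g1 g2 g3 => (hsep G g1 g2 g3).imp id (test_iff f D G)) _ δ B hδ hB)
        x y hx hxy hF N hN s.toHom s.cont (fun σ c z hz => s.compat σ c z hz)
    refine ⟨W, ⟨e, ?_, h1, h2⟩, h3', h4, fun W' b1 b2 => hun W' b1.1 b1.2 b2⟩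
    rwa [aeval_def, Algebra.algebraMap_self, eval₂_id] at he

end Pool.Agent.Results.MP_e66f84_ag.TwistsByPolynomials
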