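import Pool.Agent.T6.H28.MvFin

/-!
# The pro-`ℓ` section conjecture for twists of superelliptic curves by polynomials in several variables

Let `k` be any field finitely generated over `ℚ`, and let `K` be the function field of a
geometrically rational variety over `k`: a finitely generated extension of `k` such that the compositum
`k̄ K` is a purely transcendental extension `k̄(t_1, …, t_n)` of `k̄`.  The main example is
`K = k(t_1, …, t_n)`; others are the function fields of quadrics, of Severi-Brauer varieties and of
rational surfaces without rational points.  Let `ℓ` be a prime number, `f ∈ k[x]` a separable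
polynomial whose degree is at least 3 and divisible by `ℓ`, and let `d = D(t_1, …, t_n) ∈ K`, where `D`
is a polynomial with coefficients in `k̄`.  Let `C` be the smooth projective curve `d y^ℓ = f(x)` over
`K`.  Its genus is `(ℓ - 1)(deg f - 2)/2`, and the points `P_e = (e, 0)`, where `e ∈ k` is a root of `f`,
are rational points of `C`.

Let `F = K(x, y)` be the function field of `C`, and let `M` be the maximal pro-`ℓ` extension of
`K̄ F` that is unramified over `C`, so that `Gal(M/F)` is the geometrically pro-`ℓ` fundamental
group of `C`, the quotient of `π₁(C)` by the kernel of `π₁(C_K̄) → π₁(C_K̄)^(pro-ℓ)`.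

The components of `D` are its irreducible factors over `k̄` whose multiplicity is not divisible by `ℓ`.
We say that `D` is linked (definition `IsLinked` below), if there is at least one component, and if
any two of them can be connected by a chain of components such that consecutive ones cross: they
vanish, and their gradients are linearly independent, at some point `z ∈ k̄^n`, and no other
component vanishes at `z`.

**Theorem.**  Suppose that `D` is linked.  For every section `s` of `Gal(M/F) → G_K` there is exactly
one prolongation `W` to `M` of the valuation of a branch point such that the image of `s` is contained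
in the decomposition group of `W`, and the branch point is a rational point `P_e`.

So the sections of the geometrically pro-`ℓ` fundamental group are exactly the sections of the
rational points of `C`, and different rational points have sections which are not conjugate: the
pro-`ℓ` section conjecture holds for `C`, whose rational points are the `P_e`.  In particular
for every section of `π₁(C) → G_K`, and of `π₁(U) → G_K` for an open subcurve `U`, the induced section
of `Gal(M/F) → G_K` is the section of exactly one of the points `P_e`, and if `f` has no root in `k`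
then there are no sections.

The condition is empty if `D` has only one component, for instance if `D` is absolutely irreducible.
So the theorem applies to the curves `D(t_1, …, t_n) y^ℓ = f(x)` over `k(t_1, …, t_n)` for all absolutely
irreducible polynomials `D`; for `n ≥ 2` these are almost all polynomials.  For example it applies to
`(t_1^3 + a t_1 + b - t_2^2) y^ℓ = f(x)` over `k(t_1, t_2)`.  For `n ≥ 2` a product of irreducible
polynomials whose zero set is connected and has normal crossings is linked, for example a product of
linear polynomials in general position, as in `t_1 t_2 (t_1 + t_2 - 1) y^2 = f(x)`.  Some condition is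
necessary: the curve `f(g(t_1, …, t_n)) y^ℓ = f(x)` has the rational point `(g, 1)`, for every polynomial
`g`; here the components are factors of the polynomials `g - e`, and those for different `e` have no
common zeros.

For one variable there are no crossings; then the theorem says the same as the theorem
`GenericTwists`, and the theorem `TwistsByPolynomials`, which is about one variable, uses collisions of
roots at `p`-adic places instead.

Here the theorem is stated for an arbitrary extension `N ⊇ M` of `F` in an algebraic closure `Ω`
instead of `M`: this includes `N = M` and the fields `N = F_U` with `Gal(F_U/F) = π₁(U)`.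

The fundamental group is described through valuations.  Let `U` be an open subcurve of `C`, let `Ω`
be an algebraic closure of `F`, and let `F_U` be the maximal extension of `F` inside `Ω` which is
unramified over the closed points of `U`, that is, over their local rings, which are valuation rings
of `F`.  Then `π₁(U) = Gal(F_U/F)`, and the map `π₁(U) → G_K` is the restriction of automorphisms to
the algebraic closure of `K` in `Ω`.

Proof.  Let `κ = K̄`, let `κ₀ ⊆ κ` be the algebraic closure of `k`, and `δ^ℓ = d/lc(f)`; over `K(δ)`
the curve is the constant curve `C₀ : y^ℓ = f(x)/lc(f)`.  (1) `M` is the compositum of `κ(x)` and of the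
maximal unramified pro-`ℓ` extension `M₀` of `κ₀(C₀)`, and `Gal(M/κ(x)) = Gal(M₀/κ₀(x))` (from
`GenericTwists` in the case of one variable, in general by induction on `n`).  (2) Let `H` be the
Galois group of `κ/κ₀(t_1, …, t_n, δ)`.  Then `s(H)` acts trivially on `M₀`.  Otherwise there is an
element `w ∈ κ`, whose `ℓ²`-th power is a polynomial `G(t_1, …, t_n)`, which is moved by `H`, but is
fixed by all elements of `Gal(κ/κ₀(t_1, …, t_n))` that act trivially on `M₀` (by the theory of
`ℓ`-groups and Kummer theory, as in `TwistsByPolynomials`).  Now let `j : κ₀ → ℚ̄_p` be an embedding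
which maps the necessary finite set of constants to `p`-adic integers, and its nonzero elements to
units, and let `b`, `b' ∈ ℚ_p^n` be two points at which the valuations of `D` are divisible by `ℓ`; by a
small change we can make their coordinates algebraically independent over `j(κ₀)`.  They give two
embeddings of `κ` in `ℚ̄_p`, which agree on `κ₀`, and map `K(δ)` into unramified extensions of `ℚ_p`.
By weights the elements of the inertia group of `ℚ_p` act, for both embeddings, trivially on the
residue field of the Gauss valuation of `M`.  So the quotient of the two elements of `G_K` given by an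
element of the inertia group is an element of `Gal(κ/κ₀(t_1, …, t_n, δ))` which acts trivially on `M₀`,
hence fixes `w`; therefore the valuations of `G` at `b` and `b'` are congruent modulo `ℓ²`.  With `b` near
a general point of a hypersurface `P = 0`, where `P` is irreducible over `κ₀` (by the Nullstellensatz
there is one where the other factors of `D G` and some derivative of `P` do not vanish), it follows
that the multiplicity of `P` in `G` is divisible by `ℓ`, and by `ℓ²` if its multiplicity in `D` is
divisible by `ℓ`.  At a crossing of two components `P`, `P'` one finds points `b` where the valuations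
of `P` and `P'` are arbitrary integers `u`, `v` with `ℓ ≤ u, v < 2 ℓ`, and by comparing
`m u + m' v` and `g u + g' v`, where `m`, `m'` and `g`, `g'` are the multiplicities in `D` and in `G`, one
finds that `(g, g')/ℓ` is a multiple of `(m, m')` modulo `ℓ`.  As `D` is linked, some `G D^(ℓ r)` is an
`ℓ²`-th power, by unique factorisation.  But then `w ∈ κ₀(t_1, …, t_n, δ)`.  (3) So for `τ ∈ G_K` with
`τ(δ) ≠ δ`, which fixes `κ₀`, the automorphism `s(τ)` acts on `M₀` like an element `γ` of order `ℓ` of
`Gal(M/κ(x))`, and the proof ends as in `GenericTwists`: `γ` fixes exactly one place `W` of `M`, which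
lies above a branch point, and as `s(G_K)` normalises the group generated by `γ`, the place `W` is
fixed by `s(G_K)`.
-/

open Polynomial

namespace Pool.Agent.Results.MP_e66f84_ag.TwistsInSeveralVariables

section definitions

variable (ℓ : ℕ) (k F Ω : Type) [Field k] [Field F] [Field Ω] [Algebra k F] [Algebra F Ω]
  [Algebra k Ω]

/-- The inertia group of the valuation ring `W` of `Ω`, as a subgroup of `Gal(Ω/F)`: the
automorphisms of `Ω` over `F` that map `W` onto itself and act as the identity on its residue
field. -/
noncomputable def inertia (W : ValuationSubring Ω) : Subgroup (Ω ≃ₐ[F] Ω) :=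
  (W.inertiaSubgroup F).map (W.decompositionSubgroup F).subtype

/-- `F_U`, for a set `U` of valuation rings of `F`: the elements of `Ω` fixed by the inertia groups
of all valuation rings `W` of `Ω` with `W ∩ F ∈ U`.  If `Ω` is an algebraic closure of a field `F`
of characteristic zero, this is the maximal extension of `F` in `Ω` unramified over `U`. -/
noncomputable def unramified (U : Set (ValuationSubring F)) : IntermediateField F Ω :=
  ⨅ W : {W : ValuationSubring Ω // W.comap (algebraMap F Ω) ∈ U},
    IntermediateField.fixedField (inertia F Ω W.1)

/-- `k̄ F`, the compositum of `F` and of the algebraic closure of `k` in `Ω`. -/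
noncomputable def geomField : IntermediateField F Ω :=
  IntermediateField.adjoin F (algebraicClosure k Ω : Set Ω)

/-- The algebraic extension `L` of `K` in `Ω` is unramified at all valuation rings of `Ω` that
contain `k`: every nonzero element of `L` has the same valuation as an element of `K`.  (If `K` is
a function field of one variable over the algebraic closure of `k` and `k` has characteristic zero,
then this says that `L/K` is unramified over all points of the smooth projective curve.) -/
def Unramified {k K Ω : Type} [Field k] [Field K] [Field Ω] [Algebra k Ω] [Algebra K Ω]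
    (L : IntermediateField K Ω) : Prop :=
  ∀ W : ValuationSubring Ω, (∀ c : k, algebraMap k Ω c ∈ W) → ∀ z ∈ L, z ≠ 0 →
    ∃ t : K, t ≠ 0 ∧ z / algebraMap K Ω t ∈ W ∧ (z / algebraMap K Ω t)⁻¹ ∈ W

/-- `L/K` is a finite Galois extension whose degree is a power of `ℓ`. -/
def FiniteProEll (ℓ : ℕ) {K Ω : Type} [Field K] [Field Ω] [Algebra K Ω]
    (L : IntermediateField K Ω) : Prop :=
  FiniteDimensional K L ∧ IsGalois K L ∧ ∃ m : ℕ, Module.finrank K L = ℓ ^ m

/-- The maximal unramified pro-`ℓ` extension of `K` in `Ω`: the compositum of the finite Galois
extensions of `K` whose degree is a power of `ℓ` and which are unramified. -/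
noncomputable def maxProEll (ℓ : ℕ) (k K Ω : Type) [Field k] [Field K] [Field Ω] [Algebra k Ω]
    [Algebra K Ω] : IntermediateField K Ω :=
  ⨆ L : {L : IntermediateField K Ω // FiniteProEll ℓ L ∧ Unramified (k := k) L}, L.1

/-- `M`, the maximal unramified pro-`ℓ` extension of `k̄ F` in `Ω`, as an extension of `F`. -/
noncomputable def proEllField : IntermediateField F Ω :=
  (maxProEll ℓ k (geomField k F Ω) Ω).restrictScalars F

/-- The map `τ : M → M` acts as `σ : K → K` on the elements that the fields `K` and `M` have in
common when they are regarded as subfields of `Ω` through `i` and `j`. -/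
def ActsAs {K M Ω : Type} [Field K] [Field M] [Field Ω] (i : K →+* Ω) (j : M →+* Ω) (σ : K → K)
    (τ : M → M) : Prop :=
  ∀ c z, j z = i c → j (τ z) = i (σ c)

/-- Let `k ⊆ K ⊆ Ω` and `F ⊆ N ⊆ Ω` be fields.  A splitting of `Gal(N/F) → Gal(K/k)`: a continuous
homomorphism `s` from `Gal(K/k)` to `Gal(N/F)` such that `s(σ)` acts as `σ` on the elements of
`K ∩ N`. -/
structure Splitting (K N : Type) [Field K] [Field N] [Algebra k K] [Algebra F N] [Algebra K Ω]
    [Algebra N Ω] where
  /-- the homomorphism `Gal(K/k) → Gal(N/F)` -/
  toHom : (K ≃ₐ[k] K) →* (N ≃ₐ[F] N)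
  cont : Continuous toHom
  compat : ∀ σ : K ≃ₐ[k] K, ActsAs (algebraMap K Ω) (algebraMap N Ω) σ (toHom σ)

end definitions

section places

/-- The valuation ring `W` of `N` contains `k`, and the function `t ∈ F` is in its maximal ideal. -/
def ZeroAt (k : Type) {F N : Type} [Field k] [Field F] [Field N] [Algebra k F] [Algebra F N]
    (W : ValuationSubring N) (t : F) : Prop :=
  (∀ c : k, algebraMap F N (algebraMap k F c) ∈ W) ∧ algebraMap F N t ∈ W.nonunits

/-- The residue field of `W ∩ F` is `k`. -/
def RationalResidue (k F : Type) {N : Type} [Field k] [Field F] [Field N] [Algebra k F]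
    [Algebra F N] (W : ValuationSubring N) : Prop :=
  ∀ z : F, algebraMap F N z ∈ W → ∃ c : k, algebraMap F N (z - algebraMap k F c) ∈ W.nonunits

/-- The image of `s : Gal(K/k) → Gal(N/F)` in `Gal(M/F)`, where `M ⊆ N ⊆ Ω`, is contained in the
decomposition group of the valuation ring `W ∩ M`. -/
def InDecomposition {k F Ω K N : Type} [Field k] [Field F] [Field Ω] [Field K] [Field N]
    [Algebra k K] [Algebra F N] [Algebra F Ω] [Algebra K Ω] [Algebra N Ω]
    (s : Splitting k F Ω K N) (M : IntermediateField F Ω) (W : ValuationSubring N) : Prop :=
  ∀ σ, ∀ z : N, algebraMap N Ω z ∈ M → (s.toHom σ z ∈ W ↔ z ∈ W)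

/-- The splitting `s` of `Gal(N/F) → Gal(K/k)` induces on `M ⊆ N` the section of exactly one branch
point, and this is a rational one: there is a valuation ring `W` of `N` above a branch point `x = e`,
where `e ∈ k` is a root of `f`, with residue field `k`, such that the image of `s` in `Gal(M/F)` is
contained in the decomposition group of `W ∩ M`; and `W ∩ M` is the only such valuation ring above
a branch point, that is, with `f(x)` in its maximal ideal. -/
def FromOneBranchPoint {k F Ω K N : Type} [Field k] [Field F] [Field Ω] [Field K] [Field N]
    [Algebra k F] [Algebra k K] [Algebra F N] [Algebra F Ω] [Algebra K Ω] [Algebra N Ω]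
    (f : k[X]) (x : F) (s : Splitting k F Ω K N) (M : IntermediateField F Ω) : Prop :=
  ∃ W : ValuationSubring N,
    (∃ e : k, f.eval e = 0 ∧ ZeroAt k W (x - algebraMap k F e)) ∧ RationalResidue k F W ∧
    InDecomposition s M W ∧
    ∀ W' : ValuationSubring N, ZeroAt k W' (aeval x f) → InDecomposition s M W' →
      ∀ z : N, algebraMap N Ω z ∈ M → (z ∈ W' ↔ z ∈ W)

end places

section curves

/-- `F = k(x, y)` is the function field of the curve `d y^ℓ = f(x)`. -/
def IsFunctionField {k F : Type} [Field k] [Field F] [Algebra k F] (ℓ : ℕ) (f : k[X]) (d : k)
    (x y : F) : Prop :=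
  Transcendental k x ∧ algebraMap k F d * y ^ ℓ = aeval x f ∧
    IntermediateField.adjoin k {x, y} = (⊤ : IntermediateField k F)

/-- Let `F = k(x, y)` be the function field of the curve `C : d y^ℓ = f(x)`, let `Ω` be an algebraic
closure of `F` and `M = proEllField ℓ k F Ω`.  Then `M ⊆ F_U` for all sets `U` of valuation rings of
`F` over `k`, in particular for the set of all closed points of `C` and for its subsets.  For all
extensions `N ⊇ M` of `F` in `Ω`, for instance `N = M` or `N = F_U`, every section of
`Gal(N/F) → G_k` induces on `M` the section of exactly one branch point, and this is a rational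
point of `C`. -/
def SectionsFromBranchPoints (k : Type) [Field k] (ℓ : ℕ) (f : k[X]) (d : k) : Prop :=
  ∀ (F Ω : Type) [Field F] [Field Ω] [Algebra k F] [Algebra F Ω] [Algebra k Ω]
    [IsScalarTower k F Ω] [IsAlgClosure F Ω] (x y : F), IsFunctionField ℓ f d x y →
    (∀ U : Set (ValuationSubring F), (∀ O ∈ U, ∀ c : k, algebraMap k F c ∈ O) →
      proEllField ℓ k F Ω ≤ unramified F Ω U) ∧
    ∀ N : IntermediateField F Ω, proEllField ℓ k F Ω ≤ N →
      ∀ s : Splitting k F Ω (algebraicClosure k Ω) N,
        FromOneBranchPoint f x s (proEllField ℓ k F Ω)

end curves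

lemma iSup_congr_prop {α : Type} [CompleteLattice α] {P Q : α → Prop} (h : ∀ L, P L ↔ Q L) :
    (⨆ L : {L // P L}, L.1) = ⨆ L : {L // Q L}, L.1 := by
  have h1 : P = Q := funext fun L => propext (h L)
  subst h1
  rfl

lemma proEll_eq (ℓ : ℕ) (k F Ω : Type) [Field k] [Field F] [Field Ω] [Algebra k F] [Algebra F Ω]
    [Algebra k Ω] : proEllField ℓ k F Ω = Pool.Agent.Y157.PS.geomPro ℓ k F Ω := by
  unfold proEllField Pool.Agent.Y157.PS.geomPro maxProEll Pool.Agent.Y157.PS.maxPro
  congr 1
  refine iSup_congr_prop fun L => ?_
  constructor
  · rintro ⟨⟨h1, h2, h3⟩, h4⟩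
    refine ⟨⟨h1, h2, h3⟩, fun W hW z hz hz0 => ?_⟩
    obtain ⟨t, ht, h5, h6⟩ := h4 W hW z hz hz0
    exact ⟨t, ht, div_ne_zero hz0 ((_root_.map_ne_zero _).2 ht), h5, h6⟩
  · rintro ⟨⟨h1, h2, h3⟩, h4⟩
    refine ⟨⟨h1, h2, h3⟩, fun W hW z hz hz0 => ?_⟩
    obtain ⟨t, ht, -, h5, h6⟩ := h4 W hW z hz hz0
    exact ⟨t, ht, h5, h6⟩

section parametrisation

/-- `K` is the function field of a geometrically rational variety over `k`: it is a finitely
generated extension of `k`, and the compositum of `K` and of the algebraic closure of `k` (inside an
algebraic closure of `K`) is the field of rational functions in the algebraically independent elements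
`t_1, …, t_n` over the algebraic closure of `k`. -/
def IsGeometricallyRational (k K : Type) [Field k] [Field K] [Algebra k K] {n : ℕ}
    (t : Fin n → AlgebraicClosure K) : Prop :=
  (⊤ : IntermediateField k K).FG ∧ AlgebraicIndependent k t ∧
    IntermediateField.adjoin (algebraicClosure k (AlgebraicClosure K))
        (Set.range (algebraMap K (AlgebraicClosure K))) =
      IntermediateField.adjoin (algebraicClosure k (AlgebraicClosure K)) (Set.range t)

end parametrisation

section condition

variable {κ : Type} [Field κ] {n : ℕ}

/-- The polynomial `P` is irreducible, and its multiplicity as a factor of `D` is a number `m` which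
is not divisible by `ℓ`. -/
def IsComponent (ℓ : ℕ) (D P : MvPolynomial (Fin n) κ) : Prop :=
  Irreducible P ∧ ∃ m : ℕ, ¬ ℓ ∣ m ∧ P ^ m ∣ D ∧ ¬ P ^ (m + 1) ∣ D

/-- The components `P` and `P'` of `D` cross: there is a point `z` where both vanish, where the
gradients of `P` and `P'` are linearly independent (some minor of size two of the Jacobian matrix does
not vanish), and where no other component of `D` vanishes. -/
def AreCrossing (ℓ : ℕ) (D P P' : MvPolynomial (Fin n) κ) : Prop :=
  ∃ z : Fin n → κ, MvPolynomial.eval z P = 0 ∧ MvPolynomial.eval z P' = 0 ∧
    (∃ i i', MvPolynomial.eval z (MvPolynomial.pderiv i P) *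
        MvPolynomial.eval z (MvPolynomial.pderiv i' P') ≠
      MvPolynomial.eval z (MvPolynomial.pderiv i' P) *
        MvPolynomial.eval z (MvPolynomial.pderiv i P')) ∧
    ∀ Q, IsComponent ℓ D Q → MvPolynomial.eval z Q = 0 → Associated Q P ∨ Associated Q P'

/-- `D` has a component, and all components are connected by crossings (proportional components
being regarded as equal). -/
def IsLinked (ℓ : ℕ) (D : MvPolynomial (Fin n) κ) : Prop :=
  (∃ P, IsComponent ℓ D P) ∧ ∀ P P', IsComponent ℓ D P → IsComponent ℓ D P' →
    Relation.EqvGen (fun Q Q' => IsComponent ℓ D Q ∧ IsComponent ℓ D Q' ∧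
      (Associated Q Q' ∨ AreCrossing ℓ D Q Q')) P P'

end condition

/-- Let `k` be a field of characteristic zero which is finitely generated over `ℚ`, `K` the function
field of a geometrically rational variety over `k`, `k̄ K = k̄(t_1, …, t_n)`, `ℓ` a prime number,
`f ∈ k[x]` a separable polynomial whose degree is at least 3 and divisible by `ℓ`, and `D` a linked
polynomial in `n` variables over `k̄` such that `d = D(t_1, …, t_n)` is in `K`.  Then every section of the
fundamental group of the curve `d y^ℓ = f(x)` over `K`, of its open subcurves, and of the
geometrically pro-`ℓ` fundamental group of the curve, induces on the latter the section of exactly one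
branch point, and this is a rational point. -/
theorem result (k K : Type) [Field k] [CharZero k] (hk : (⊤ : IntermediateField ℚ k).FG)
    [Field K] [Algebra k K] (n : ℕ) (t : Fin n → AlgebraicClosure K)
    (ht : IsGeometricallyRational k K t) (ℓ : ℕ) [Fact ℓ.Prime]
    (f : k[X]) (hf : f.Separable) (hℓ : ℓ ∣ f.natDegree) (h3 : 3 ≤ f.natDegree)
    (D : MvPolynomial (Fin n) (algebraicClosure k (AlgebraicClosure K))) (hD : IsLinked ℓ D)
    (d : K) (hd : MvPolynomial.aeval t D = algebraMap K (AlgebraicClosure K) d) :
    SectionsFromBranchPoints K ℓ (f.map (algebraMap k K)) d := by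
  obtain ⟨ht1, ht2, ht3⟩ := ht
  have hcK : CharZero K := charZero_of_injective_algebraMap (algebraMap k K).injective
  have hD0 : D ≠ 0 := by
    obtain ⟨⟨P, -, m, -, -, h2⟩, -⟩ := hD
    rintro rfl
    exact h2 (dvd_zero _)
  have hd0 : d ≠ 0 := by
    rintro rfl
    rw [map_zero] at hd
    exact hD0 (ht2.algebraicClosure.eq_zero_of_aeval_eq_zero D hd)
  intro F Ω _ _ _ _ _ _ _ x y hxyF
  obtain ⟨hx, hxy, hF⟩ := hxyF
  have hcl : IsAlgClosed Ω := IsAlgClosure.isAlgClosed F
  have halg : Algebra.IsAlgebraic F Ω := IsAlgClosure.isAlgebraic
  have hFx := Pool.Agent.Y157.PS.alg_of_eqn (Fact.out : ℓ.Prime).pos (f.map (algebraMap k K)) _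
    hd0 x y hxy hF
  rw [proEll_eq]
  refine ⟨fun U hU => ?_, fun N hN s => ?_⟩
  · exact (Pool.Agent.Y157.PS.a_ind ℓ K F Ω x hx hFx U hU).1
  · obtain ⟨W, ⟨⟨h1, ⟨e, he, h2⟩, h3'⟩, h4⟩, hun⟩ :=
      Pool.Agent.T6.H28.Geo.genM (f.map (algebraMap k K)) hf.map
        (by rwa [natDegree_map]) (by rwa [natDegree_map]) d hd0
        (fun δ B hδ hB => Pool.Agent.T6.H28.Mv.atR hk ht1 t ht2 ht3 f hf.ne_zero D hD d hd _ δ B
          hδ hB)
        x y hx hxy hF N hN s.toHom s.cont (fun σ c z hz => s.compat σ c z hz)
    refine ⟨W, ⟨e, ?_, h1, h2⟩, h3', h4, fun W' b1 b2 => hun W' b1.1 b1.2 b2⟩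
    rwa [aeval_def, Algebra.algebraMap_self, eval₂_id] at he

end Pool.Agent.Results.MP_e66f84_ag.TwistsInSeveralVariables
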